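import Mathlib

/-!
# Completely multiplicative extensions
-/

set_option autoImplicit false

namespace Pool.Agent.Q27.CM

open Finset
open scoped Classical

/-- completely multiplicative extension of a function on primes -/
noncomputable def cm (a : ℕ → ℝ) (n : ℕ) : ℝ := (n.primeFactorsList.map a).prod

theorem cm_one (a : ℕ → ℝ) : cm a 1 = 1 := by simp [cm]

theorem cm_prime (a : ℕ → ℝ) {p : ℕ} (hp : p.Prime) : cm a p = a p := by
  simp [cm, Nat.primeFactorsList_prime hp]

theorem cm_mul (a : ℕ → ℝ) {m n : ℕ} (hm : m ≠ 0) (hn : n ≠ 0) :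
    cm a (m * n) = cm a m * cm a n := by
  unfold cm
  rw [((Nat.perm_primeFactorsList_mul hm hn).map a).prod_eq, List.map_append, List.prod_append]

theorem cm_nonneg (a : ℕ → ℝ) (ha : ∀ p, 0 ≤ a p) (n : ℕ) : 0 ≤ cm a n := by
  unfold cm
  apply List.prod_nonneg
  intro x hx
  rw [List.mem_map] at hx
  obtain ⟨p, _, rfl⟩ := hx
  exact ha p

theorem cm_pow (a : ℕ → ℝ) {n : ℕ} (hn : n ≠ 0) (k : ℕ) : cm a (n ^ k) = cm a n ^ k := by
  induction k with
  | zero => simp [cm_one]
  | succ k ih => rw [pow_succ, cm_mul a (pow_ne_zero k hn) hn, ih, pow_succ]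

/-- induction principle for inequalities between completely multiplicative functions -/
theorem cm_le_cm (a b : ℕ → ℝ) (n : ℕ) (ha : ∀ p, p.Prime → p ∣ n → 0 ≤ a p)
    (hab : ∀ p, p.Prime → p ∣ n → a p ≤ b p) : cm a n ≤ cm b n := by
  unfold cm
  have h : ∀ l : List ℕ, (∀ p ∈ l, 0 ≤ a p ∧ a p ≤ b p) →
      0 ≤ (l.map a).prod ∧ (l.map a).prod ≤ (l.map b).prod := by
    intro l
    induction l with
    | nil => intro _; simp
    | cons p l ih =>
      intro hl
      have h1 := hl p (by simp)
      have h2 := ih (fun q hq => hl q (by simp [hq]))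
      simp only [List.map_cons, List.prod_cons]
      exact ⟨mul_nonneg h1.1 h2.1, mul_le_mul h1.2 h2.2 h2.1 (h1.1.trans h1.2)⟩
  refine (h _ ?_).2
  intro p hp
  have hpp := Nat.prime_of_mem_primeFactorsList hp
  have hpd := Nat.dvd_of_mem_primeFactorsList hp
  exact ⟨ha p hpp hpd, hab p hpp hpd⟩

theorem cm_congr (a b : ℕ → ℝ) (n : ℕ) (hab : ∀ p, p.Prime → p ∣ n → a p = b p) :
    cm a n = cm b n := by
  unfold cm
  congr 1
  apply List.map_congr_left
  intro p hp
  exact hab p (Nat.prime_of_mem_primeFactorsList hp) (Nat.dvd_of_mem_primeFactorsList hp)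

theorem cm_eq_one (a : ℕ → ℝ) (n : ℕ) (ha : ∀ p, p.Prime → p ∣ n → a p = 1) : cm a n = 1 := by
  rw [cm_congr a (fun _ => 1) n ha]
  unfold cm
  simp

theorem cm_mul_fun (a b : ℕ → ℝ) (n : ℕ) : cm (fun p => a p * b p) n = cm a n * cm b n := by
  unfold cm
  rw [List.prod_map_mul]

/-- the completely multiplicative function `n ^ s` -/
theorem cm_rpow (s : ℝ) {n : ℕ} (hn : n ≠ 0) : cm (fun p => (p : ℝ) ^ s) n = (n : ℝ) ^ s := by
  unfold cm
  have h : ∀ l : List ℕ, (l.map (fun p : ℕ => (p : ℝ) ^ s)).prod = ((l.prod : ℕ) : ℝ) ^ s := by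
    intro l
    induction l with
    | nil => simp
    | cons p l ih =>
      simp only [List.map_cons, List.prod_cons, ih]
      rw [← Real.mul_rpow (Nat.cast_nonneg p) (Nat.cast_nonneg _)]
      push_cast
      rfl
  rw [h, Nat.prod_primeFactorsList hn]

theorem cm_id {n : ℕ} (hn : n ≠ 0) : cm (fun p => (p : ℝ)) n = n := by
  have h := cm_rpow 1 hn
  simp only [Real.rpow_one] at h
  exact h

theorem cm_squarefree (a : ℕ → ℝ) {n : ℕ} (hn : Squarefree n) :
    cm a n = ∏ p ∈ n.primeFactors, a p := by
  unfold cm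
  have h1 : n.primeFactorsList.Nodup := (Nat.squarefree_iff_nodup_primeFactorsList hn.ne_zero).1 hn
  have h2 : n.primeFactors = n.primeFactorsList.toFinset := rfl
  rw [h2, List.prod_toFinset _ h1]

/-- one more factor is at most the completely multiplicative function -/
theorem prod_le_cm (a : ℕ → ℝ) (ha : ∀ p, 1 ≤ a p) {n : ℕ} :
    ∏ p ∈ n.primeFactors, a p ≤ cm a n := by
  unfold cm
  have h : ∀ l : List ℕ, ∏ p ∈ l.toFinset, a p ≤ (l.map a).prod ∧ 1 ≤ ∏ p ∈ l.toFinset, a p := by
    intro l
    induction l with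
    | nil => simp
    | cons p l ih =>
      rw [List.toFinset_cons, List.map_cons, List.prod_cons]
      by_cases hp : p ∈ l.toFinset
      · rw [insert_eq_of_mem hp]
        refine ⟨?_, ih.2⟩
        have h1 := ha p
        have h2 := ih.1
        have h3 := ih.2
        nlinarith
      · rw [prod_insert hp]
        have h1 := ha p
        have h2 := ih.1
        have h3 := ih.2
        refine ⟨mul_le_mul_of_nonneg_left h2 (by linarith), ?_⟩
        nlinarith
  exact (h _).1

/-- expansion of first order: `∏ (1 + 2 (u + s)) ≤ ∏ (1 + 2 s) + 2 ∑ v_p u_p ∏_{n/p} (1 + 2 (u + s))` -/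
theorem cm_expand (u s : ℕ → ℝ) (hu : ∀ p, 0 ≤ u p) (hs : ∀ p, 0 ≤ s p) {n : ℕ} (hn : n ≠ 0) :
    cm (fun p => 1 + 2 * (u p + s p)) n ≤ cm (fun p => 1 + 2 * s p) n +
      ∑ p ∈ n.primeFactors, (n.factorization p : ℝ) *
        (2 * u p * cm (fun p => 1 + 2 * (u p + s p)) (n / p)) := by
  induction n using induction_on_primes with
  | zero => exact absurd rfl hn
  | one => simp [cm_one]
  | prime_mul p m hp ih =>
    have hm : m ≠ 0 := fun h => hn (by rw [h, mul_zero])
    have ih' := ih hm
    set F : ℕ → ℝ := fun p => 1 + 2 * (u p + s p) with hF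
    set S : ℕ → ℝ := fun p => 1 + 2 * s p with hS
    have hF0 : ∀ q, 0 ≤ F q := fun q => by simp only [hF]; have := hu q; have := hs q; linarith
    have hS0 : ∀ q, 0 ≤ S q := fun q => by simp only [hS]; have := hs q; linarith
    have hFm : 0 ≤ cm F m := cm_nonneg F hF0 m
    have hSm : 0 ≤ cm S m := cm_nonneg S hS0 m
    rw [cm_mul F hp.ne_zero hm, cm_mul S hp.ne_zero hm, cm_prime F hp, cm_prime S hp]
    have hpf : (p * m).primeFactors = insert p m.primeFactors := by
      rw [Nat.primeFactors_mul hp.ne_zero hm, hp.primeFactors]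
      rfl
    have hfac : ∀ q, ((p * m).factorization q : ℝ) = (m.factorization q : ℝ) + if q = p then 1 else 0 := by
      intro q
      rw [Nat.factorization_mul hp.ne_zero hm, Finsupp.add_apply, hp.factorization,
        Finsupp.single_apply]
      push_cast
      split_ifs with h1 h2 h2
      · ring
      · exact absurd h1.symm h2
      · exact absurd h2.symm h1
      · ring
    have hsum : ∑ q ∈ (p * m).primeFactors, ((p * m).factorization q : ℝ) *
        (2 * u q * cm F (p * m / q)) =
        F p * ∑ q ∈ m.primeFactors, (m.factorization q : ℝ) * (2 * u q * cm F (m / q)) +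
          2 * u p * cm F m := by
      simp only [hfac, add_mul, sum_add_distrib]
      congr 1
      · have e1 : ∑ q ∈ (p * m).primeFactors, (m.factorization q : ℝ) *
            (2 * u q * cm F (p * m / q)) =
            ∑ q ∈ m.primeFactors, (m.factorization q : ℝ) * (2 * u q * cm F (p * m / q)) := by
          symm
          apply sum_subset
          · rw [hpf]; exact subset_insert _ _
          · intro q _ hq
            have : m.factorization q = 0 := by
              rw [← Finsupp.notMem_support_iff, Nat.support_factorization]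
              exact hq
            rw [this]; simp
        rw [e1, mul_sum]
        refine sum_congr rfl fun q hq => ?_
        have hqd := Nat.dvd_of_mem_primeFactors hq
        have hqp := Nat.prime_of_mem_primeFactors hq
        have hmq : m / q ≠ 0 := by
          have := Nat.div_pos (Nat.le_of_dvd (Nat.pos_of_ne_zero hm) hqd) hqp.pos
          omega
        rw [Nat.mul_div_assoc p hqd, cm_mul F hp.ne_zero hmq, cm_prime F hp]
        ring
      · simp only [ite_mul, one_mul, zero_mul]
        rw [sum_ite_eq', if_pos (by rw [hpf]; exact mem_insert_self _ _),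
          Nat.mul_div_cancel_left m hp.pos]
    rw [hsum]
    set X := ∑ q ∈ m.primeFactors, (m.factorization q : ℝ) * (2 * u q * cm F (m / q)) with hX
    have hX0 : 0 ≤ X := sum_nonneg fun q _ => mul_nonneg (Nat.cast_nonneg _)
      (mul_nonneg (by have := hu q; linarith) (cm_nonneg F hF0 _))
    have hFp : F p = S p + 2 * u p := by simp only [hF, hS]; ring
    have h1 : S p * cm F m ≤ S p * (cm S m + X) := mul_le_mul_of_nonneg_left ih' (hS0 p)
    have h2 : S p * X ≤ F p * X := mul_le_mul_of_nonneg_right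
      (by rw [hFp]; have := hu p; linarith) hX0
    rw [hFp]
    rw [hFp] at h2
    nlinarith

/-- perturbation of a completely multiplicative function -/
theorem cm_perturb (x g g' G : ℕ → ℝ) (ε : ℝ) (hx : ∀ p, 0 ≤ x p) (hε : 0 ≤ ε)
    (hg : ∀ p, |g p| ≤ G p) (hg' : ∀ p, |g' p| ≤ G p) (hgg : ∀ p, |g p - g' p| ≤ ε * G p) (n : ℕ) :
    |cm (fun p => g p - x p) n| ≤ cm (fun p => x p + G p) n ∧
    |cm (fun p => g p - x p) n - cm (fun p => g' p - x p) n| ≤
      ε * (cm (fun p => x p + 2 * G p) n - cm (fun p => x p + G p) n) ∧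
    cm (fun p => x p + G p) n ≤ cm (fun p => x p + 2 * G p) n := by
  have hG : ∀ p, 0 ≤ G p := fun p => (abs_nonneg _).trans (hg p)
  have hb : ∀ p, |g p - x p| ≤ x p + G p := fun p => by
    have h1 := abs_sub (g p) (x p)
    rw [abs_of_nonneg (hx p)] at h1
    linarith [hg p]
  have hb' : ∀ p, |g' p - x p| ≤ x p + G p := fun p => by
    have h1 := abs_sub (g' p) (x p)
    rw [abs_of_nonneg (hx p)] at h1
    linarith [hg' p]
  unfold cm
  generalize n.primeFactorsList = l
  induction l with
  | nil => simp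
  | cons a l ih =>
    obtain ⟨h1, h2, h3⟩ := ih
    simp only [List.map_cons, List.prod_cons]
    set A := (l.map (fun p => g p - x p)).prod with hA
    set A' := (l.map (fun p => g' p - x p)).prod with hA'
    set B := (l.map (fun p => x p + G p)).prod with hB
    set C := (l.map (fun p => x p + 2 * G p)).prod with hC
    have hB0 : 0 ≤ B := (abs_nonneg _).trans h1
    have hxa : 0 ≤ x a + G a := add_nonneg (hx a) (hG a)
    refine ⟨?_, ?_, ?_⟩
    · rw [abs_mul]
      exact mul_le_mul (hb a) h1 (abs_nonneg _) hxa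
    · have e : (g a - x a) * A - (g' a - x a) * A' = (g a - g' a) * A + (g' a - x a) * (A - A') := by
        ring
      rw [e]
      refine (abs_add_le _ _).trans ?_
      rw [abs_mul, abs_mul]
      have t1 : |g a - g' a| * |A| ≤ (ε * G a) * B :=
        mul_le_mul (hgg a) h1 (abs_nonneg _) (mul_nonneg hε (hG a))
      have t2 : |g' a - x a| * |A - A'| ≤ (x a + G a) * (ε * (C - B)) :=
        mul_le_mul (hb' a) h2 (abs_nonneg _) hxa
      have t3 : 0 ≤ ε * (G a * (C - B)) := mul_nonneg hε (mul_nonneg (hG a) (by linarith))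
      calc |g a - g' a| * |A| + |g' a - x a| * |A - A'|
          ≤ (ε * G a) * B + (x a + G a) * (ε * (C - B)) := add_le_add t1 t2
        _ ≤ (ε * G a) * B + (x a + G a) * (ε * (C - B)) + ε * (G a * (C - B)) := by linarith
        _ = ε * ((x a + 2 * G a) * C - (x a + G a) * B) := by ring
    · exact mul_le_mul (by linarith [hG a]) h3 hB0 (by linarith [hG a])

end Pool.Agent.Q27.CM
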