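import Pool.Agent.W76.MO.Stmts
import Pool.Agent.Q27.CM.Cm

/-!
# The completely multiplicative version of the objects of `W76.MO`
-/

set_option autoImplicit false

namespace Pool.Agent.Q27.CM

open Finset Filter Topology
open scoped Classical
open Pool.Agent.W76.MO

/-- the completely multiplicative function with value `1 + 2 p g(p)` at `p` -/
noncomputable def E2c (E : Env) (j n : ℕ) : ℝ := cm (fun p => 1 + 2 * (p * E.g j p)) n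

/-- the `R`-rough elements of a cell which are not squarefree -/
noncomputable def ns (E : Env) (R i k : ℕ) : Finset ℕ :=
  (cell E.δ i k).filter (fun n => ¬ Squarefree n ∧ Rough R n)

/-- the part of the host sum which comes from the bad cell `(i', k')`, for the elements of the cell
`(i, k)` which are not squarefree -/
noncomputable def HTc (E : Env) (j R i k i' k' : ℕ) (P : ℕ → ℕ → Prop) : ℝ :=
  ∑ u ∈ ((E.Host j i' k') ×ˢ (ns E R i k)).filter (fun u : ℕ × ℕ =>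
      lp u.1 ∣ u.2 ∧ (2 : ℝ) ^ (1 / 20 * (i : ℝ)) < lp u.1 ∧ P u.1 u.2),
    E.w i' / ((E.Host j i' k').card : ℝ) * ((u.1 : ℝ) / u.2) * E2c E j (u.2 / lp u.1)

/-- (ES) for the completely multiplicative function -/
def ESumc (E : Env) : Prop := ∀ η : ℝ, 0 < η → ∃ R₀ : ℕ, ∀ R : ℕ, R₀ ≤ R → ∃ J : ℕ, ∀ j : ℕ, J ≤ j →
  ∀ M : ℕ, ∑ t ∈ (Icc 2 M).filter (fun t => Rough R t),
    E2c E j t / t * (t : ℝ) ^ (-E.δ / 2) ≤ η

/-- (HP) contribution of the host primes `> 2^(i/20)` -/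
def HPartc (E : Env) : Prop := ∃ R₀ : ℕ, ∀ R : ℕ, R₀ ≤ R → ∃ J : ℕ, ∀ j : ℕ, J ≤ j → ∀ i : ℕ, j ≤ i →
  ∀ k : ℕ, k < nc E.δ i →
    ∑ n ∈ ns E R i k, ∑ q ∈ n.primeFactors.filter (fun q : ℕ => (2 : ℝ) ^ (1 / 20 * (i : ℝ)) < q),
      E.gh j q * (E2c E j (n / q) / ((n / q : ℕ) : ℝ)) ≤ 3 * (E.w i / 6400)

/-- (UP) contribution of the large control primes of the first kind -/
def UPartc (E : Env) : Prop := ∃ R₀ : ℕ, ∀ R : ℕ, R₀ ≤ R → ∃ J : ℕ, ∀ j : ℕ, J ≤ j → ∀ i : ℕ, j ≤ i →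
  ∀ k : ℕ, k < nc E.δ i →
    ∑ n ∈ ns E R i k, ∑ p ∈ n.primeFactors.filter (fun p : ℕ => (2 : ℝ) ^ (3 / 5 * (i : ℝ)) < p),
      E.gu j p * (E2c E j (n / p) / ((n / p : ℕ) : ℝ)) ≤ E.w i / 6400

/-- (SP) contribution of the small control primes -/
def SPartc (E : Env) : Prop := ∃ J : ℕ, ∀ j : ℕ, J ≤ j → ∀ i : ℕ, j ≤ i → ∀ k : ℕ, k < nc E.δ i →
    ∑ n ∈ cell E.δ i k, (1 / (n : ℝ)) * cm (fun p => 1 + 2 * (p * E.gs j i p)) n ≤ E.w i / 6400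

/-- (H1) hosts of cells of scale `< (1-τ) i` -/
def HP1c (E : Env) : Prop := ∃ J : ℕ, ∀ j : ℕ, J ≤ j → ∀ R i k : ℕ, j ≤ i → k < nc E.δ i →
  ∑ i' ∈ (range (2 * i + 3)).filter (fun i' : ℕ => j ≤ i' ∧ (i' : ℝ) < (1 - E.τ) * i),
    ∑ k' ∈ E.Bad i', HTc E j R i k i' k' (fun _ _ => True) ≤ E.w i / 6400

/-- (HB) hosts of cells of scale `≥ (1-τ) i`, pairs with `n₁ ∤ n` -/
def HPBc (E : Env) : Prop := ∃ J : ℕ, ∀ j : ℕ, J ≤ j → ∀ R i k : ℕ, j ≤ i → k < nc E.δ i →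
  ∑ i' ∈ (range (2 * i + 3)).filter (fun i' : ℕ => j ≤ i' ∧ (1 - E.τ) * i ≤ (i' : ℝ)),
    ∑ k' ∈ E.Bad i', HTc E j R i k i' k' (fun a b => ¬ a ∣ b) ≤ E.w i / 6400

/-- (HA) hosts of cells of scale `≥ (1-τ) i`, pairs with `n₁ ∣ n` -/
def HPAc (E : Env) : Prop := ∃ R₀ : ℕ, ∀ R : ℕ, R₀ ≤ R → ∃ J : ℕ, ∀ j : ℕ, J ≤ j → ∀ i k : ℕ, j ≤ i →
  k < nc E.δ i →
  ∑ i' ∈ (range (2 * i + 3)).filter (fun i' : ℕ => j ≤ i' ∧ (1 - E.τ) * i ≤ (i' : ℝ)),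
    ∑ k' ∈ E.Bad i', HTc E j R i k i' k' (fun a b => a ∣ b) ≤ E.w i / 6400

section basic

variable {E : Env} {j : ℕ}

theorem g_nonneg (hgu : ∀ p, 0 ≤ E.gu j p) (hgh : ∀ p, 0 ≤ E.gh j p) (p : ℕ) : 0 ≤ E.g j p :=
  add_nonneg (hgu p) (hgh p)

theorem one_le_fac (hgu : ∀ p, 0 ≤ E.gu j p) (hgh : ∀ p, 0 ≤ E.gh j p) (p : ℕ) :
    1 ≤ 1 + 2 * ((p : ℝ) * E.g j p) := by
  have := mul_nonneg (Nat.cast_nonneg (α := ℝ) p) (g_nonneg hgu hgh p)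
  linarith

theorem E2c_nonneg (hgu : ∀ p, 0 ≤ E.gu j p) (hgh : ∀ p, 0 ≤ E.gh j p) (n : ℕ) :
    0 ≤ E2c E j n :=
  cm_nonneg _ (fun p => by have := one_le_fac hgu hgh p; linarith) n

theorem E2c_one : E2c E j 1 = 1 := cm_one _

theorem E2c_mul {m n : ℕ} (hm : m ≠ 0) (hn : n ≠ 0) :
    E2c E j (m * n) = E2c E j m * E2c E j n := cm_mul _ hm hn

theorem E2c_sq {n : ℕ} (hn : Squarefree n) : E2c E j n = E.E2 j n := cm_squarefree _ hn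

theorem two_pow_sc_le {p : ℕ} (hp : p.Prime) : 2 ^ (Env.sc p) ≤ p := by
  unfold Env.sc
  have h1 : p - 1 ≠ 0 := by
    have := hp.two_le
    omega
  have h2 := Nat.pow_log_le_self 2 h1
  omega

/-- bound for the factors -/
theorem fac_le (h4 : ∀ p : ℕ, E.gu j p ≠ 0 → E.U j p)
    (h5 : ∀ q : ℕ, E.gh j q ≠ 0 → E.H j q ∧ ¬ E.U j q ∧ 1 ≤ q * E.gh j q)
    (h6 : ∀ p : ℕ, E.U j p → j - 1 ≤ Env.sc p ∧
      1 + 2 * (p * E.gu j p) ≤ (2 : ℝ) ^ (E.δ / 2 * Env.sc p) / (Env.sc p : ℝ) ^ 35)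
    (h7 : ∀ q : ℕ, E.gh j q ≠ 0 → (2 : ℝ) ^ ((j : ℝ) / 2) ≤ q ∧
      1 + 2 * (q * E.gh j q) ≤ (q : ℝ) ^ (9 * E.δ)) (p : ℕ) (hpp : p.Prime) :
    1 + 2 * ((p : ℝ) * E.g j p) ≤ (p : ℝ) ^ (9 * E.δ) := by
  have hδ := E.hδ
  have hp1 : (1 : ℝ) ≤ p := by exact_mod_cast hpp.one_lt.le
  unfold Env.g
  by_cases hh : E.gh j p = 0
  · rw [hh, add_zero]
    by_cases hu : E.gu j p = 0
    · rw [hu, mul_zero, mul_zero, add_zero]
      exact Real.one_le_rpow hp1 (by linarith)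
    · have h := (h6 p (h4 p hu)).2
      refine le_trans h ?_
      have hs : (2 : ℝ) ^ (E.δ / 2 * Env.sc p) / (Env.sc p : ℝ) ^ 35 ≤
          (2 : ℝ) ^ (E.δ / 2 * Env.sc p) := by
        rcases Nat.eq_zero_or_pos (Env.sc p) with h0 | h0
        · rw [h0]
          norm_num
        · apply div_le_self (by positivity)
          apply one_le_pow₀
          exact_mod_cast h0
      refine le_trans hs ?_
      have h8 : (2 : ℝ) ^ (E.δ / 2 * Env.sc p) = ((2 ^ (Env.sc p) : ℕ) : ℝ) ^ (E.δ / 2) := by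
        rw [mul_comm, Real.rpow_mul (by norm_num), Real.rpow_natCast]
        push_cast
        rfl
      rw [h8]
      calc ((2 ^ (Env.sc p) : ℕ) : ℝ) ^ (E.δ / 2) ≤ (p : ℝ) ^ (E.δ / 2) := by
            apply Real.rpow_le_rpow (by positivity) _ (by linarith)
            exact_mod_cast two_pow_sc_le hpp
        _ ≤ (p : ℝ) ^ (9 * E.δ) :=
            Real.rpow_le_rpow_of_exponent_le hp1 (by linarith)
  · have hu : E.gu j p = 0 := by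
      by_contra hu
      exact (h5 p hh).2.1 (h4 p hu)
    rw [hu, zero_add]
    exact (h7 p hh).2

theorem E2c_le (h4 : ∀ p : ℕ, E.gu j p ≠ 0 → E.U j p)
    (h5 : ∀ q : ℕ, E.gh j q ≠ 0 → E.H j q ∧ ¬ E.U j q ∧ 1 ≤ q * E.gh j q)
    (h6 : ∀ p : ℕ, E.U j p → j - 1 ≤ Env.sc p ∧
      1 + 2 * (p * E.gu j p) ≤ (2 : ℝ) ^ (E.δ / 2 * Env.sc p) / (Env.sc p : ℝ) ^ 35)
    (h7 : ∀ q : ℕ, E.gh j q ≠ 0 → (2 : ℝ) ^ ((j : ℝ) / 2) ≤ q ∧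
      1 + 2 * (q * E.gh j q) ≤ (q : ℝ) ^ (9 * E.δ))
    (h2 : ∀ p, 0 ≤ E.gu j p) (h3 : ∀ p, 0 ≤ E.gh j p)
    {n : ℕ} (hn : n ≠ 0) : E2c E j n ≤ (n : ℝ) ^ (9 * E.δ) := by
  rw [← cm_rpow _ hn]
  exact cm_le_cm _ _ n (fun p _ _ => by have := one_le_fac h2 h3 p; linarith)
    (fun p hp _ => fac_le h4 h5 h6 h7 p hp)

/-- a number all of whose primes are free of perturbations -/
theorem E2c_free {m : ℕ} (hgu : ∀ p, E.gu j p ≠ 0 → E.U j p) (hgh : ∀ p, E.gh j p ≠ 0 → E.H j p)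
    (hm : ∀ p : ℕ, p.Prime → p ∣ m → ¬ E.U j p ∧ ¬ E.H j p) : E2c E j m = 1 := by
  refine cm_eq_one _ m fun p hp hd => ?_
  obtain ⟨h1, h2⟩ := hm p hp hd
  have e1 : E.gu j p = 0 := by
    by_contra hc; exact h1 (hgu p hc)
  have e2 : E.gh j p = 0 := by
    by_contra hc; exact h2 (hgh p hc)
  unfold Env.g
  rw [e1, e2]
  ring

end basic

end Pool.Agent.Q27.CM
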