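import Pool.Agent.Q27.CM.Defs

set_option autoImplicit false

/-!
# The Euler product sum of the completely multiplicative function is small
-/

namespace Pool.Agent.Q27.CM

open Finset Filter Topology
open scoped Classical
open Pool.Agent.W76.MO

/-- the completely multiplicative function as a homomorphism -/
noncomputable def cmHom (a : ℕ → ℝ) : ℕ →* ℝ where
  toFun n := if n = 0 then 0 else cm a n
  map_one' := by simp [cm_one]
  map_mul' m n := by
    by_cases hm : m = 0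
    · simp [hm]
    by_cases hn : n = 0
    · simp [hn]
    simp only [hm, hn, mul_eq_zero, or_self, if_false]
    exact cm_mul a hm hn

theorem euler_le (P : Finset ℕ) (hP : ∀ p ∈ P, p.Prime) (a : ℕ → ℝ) (h0 : ∀ p ∈ P, 0 ≤ a p)
    (h1 : ∀ p ∈ P, a p ≤ 1 / 2) (F : Finset ℕ)
    (hF : ∀ t ∈ F, t ≠ 0 ∧ ∀ p : ℕ, p.Prime → p ∣ t → p ∈ P) :
    ∑ t ∈ F, cm a t ≤ Real.exp (2 * ∑ p ∈ P, a p) := by
  set a' : ℕ → ℝ := fun p => if p ∈ P then a p else 0 with ha'
  have h0' : ∀ p, 0 ≤ a' p := by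
    intro p
    simp only [ha']
    split_ifs with h
    · exact h0 p h
    · exact le_rfl
  have h1' : ∀ p, a' p ≤ 1 / 2 := by
    intro p
    simp only [ha']
    split_ifs with h
    · exact h1 p h
    · norm_num
  have hval : ∀ n : ℕ, n ≠ 0 → cmHom a' n = cm a' n := by
    intro n hn
    show (if n = 0 then (0 : ℝ) else cm a' n) = cm a' n
    rw [if_neg hn]
  have hp1 : ∀ {p : ℕ}, p.Prime → ‖cmHom a' p‖ < 1 := by
    intro p hp
    rw [hval p hp.ne_zero, cm_prime a' hp, Real.norm_eq_abs, abs_of_nonneg (h0' p)]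
    linarith [h1' p]
  obtain ⟨-, hs⟩ := EulerProduct.summable_and_hasSum_factoredNumbers_prod_filter_prime_geometric
    (f := cmHom a') hp1 P
  have hfilter : P.filter (fun p => p.Prime) = P := filter_true_of_mem hP
  rw [hfilter] at hs
  have hnn : ∀ m : Nat.factoredNumbers P, 0 ≤ cmHom a' m := by
    intro m
    have : (m : ℕ) ≠ 0 := Nat.ne_zero_of_mem_factoredNumbers m.2
    rw [hval _ this]
    exact cm_nonneg _ h0' _
  have hmem : ∀ t ∈ F, t ∈ Nat.factoredNumbers P := by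
    intro t ht
    obtain ⟨ht0, htp⟩ := hF t ht
    rw [Nat.mem_factoredNumbers']
    exact fun p hp hd => htp p hp hd
  have e1 : ∑ t ∈ F, cm a t = ∑ t ∈ F, cmHom a' t := by
    refine sum_congr rfl fun t ht => ?_
    obtain ⟨ht0, htp⟩ := hF t ht
    rw [hval _ ht0]
    refine cm_congr _ _ _ fun p hp hd => ?_
    simp only [ha']
    rw [if_pos (htp p hp hd)]
  have e2 : ∑ t ∈ F, cmHom a' t =
      ∑ m ∈ F.subtype (fun t => t ∈ Nat.factoredNumbers P), cmHom a' (m : ℕ) :=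
    (Finset.sum_subtype_of_mem (fun t => cmHom a' t) hmem).symm
  rw [e1, e2]
  refine (sum_le_hasSum _ (fun m _ => hnn m) hs).trans ?_
  rw [mul_sum, Real.exp_sum]
  apply Finset.prod_le_prod
  · intro p hp
    rw [hval p (hP p hp).ne_zero, cm_prime a' (hP p hp)]
    have := h1' p
    have : 0 < 1 - a' p := by linarith
    positivity
  · intro p hp
    rw [hval p (hP p hp).ne_zero, cm_prime a' (hP p hp)]
    have e3 : a' p = a p := by simp only [ha']; rw [if_pos hp]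
    rw [e3]
    have h2 := h0 p hp
    have h3 := h1 p hp
    have h4 : 0 < 1 - a p := by linarith
    have h5 : (1 - a p)⁻¹ ≤ 1 + 2 * a p := by
      rw [inv_le_iff_one_le_mul₀ h4]
      nlinarith
    have h6 := Real.add_one_le_exp (2 * a p)
    linarith

lemma tail_small {δ ε : ℝ} (hδ : 0 < δ) (hε : 0 < ε) :
    ∃ R₀ : ℕ, ∀ P : Finset ℕ, (∀ p ∈ P, R₀ ≤ p) → ∑ p ∈ P, (p : ℝ) ^ (-1 - δ / 2) ≤ ε := by
  have hs : Summable (fun n : ℕ => (n : ℝ) ^ (-1 - δ / 2)) :=
    Real.summable_nat_rpow.2 (by linarith)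
  obtain ⟨s, hs⟩ := (summable_iff_vanishing_norm.1 hs) ε hε
  refine ⟨s.sup id + 1, fun P hP => ?_⟩
  have h1 := hs P (by
    rw [Finset.disjoint_left]
    intro p hp hps
    have h2 : p ≤ s.sup id := Finset.le_sup (f := id) hps
    have h3 := hP p hp
    omega)
  exact (le_abs_self _).trans h1.le

theorem esc (E : Env) (hGB : E.GBounds) : ESumc E := by
  intro η hη
  obtain ⟨J, hJ1, hJ⟩ := hGB
  set ε := min 1 η / 8 with hε
  have hm : 0 < min 1 η := lt_min one_pos hη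
  have hε0 : 0 < ε := by positivity
  obtain ⟨R₀, hR₀⟩ := tail_small E.hδ hε0
  refine ⟨R₀, fun R hR => ?_⟩
  obtain ⟨J', hJ'⟩ := exists_nat_gt (4 / ε)
  refine ⟨max J J', fun j hj M => ?_⟩
  obtain ⟨-, hgu, hgh, -, -, -, -, hsh, hsu⟩ := hJ j ((le_max_left _ _).trans hj)
  have hj0 : (0 : ℝ) < j := by
    have : 1 ≤ j := hJ1.trans ((le_max_left _ _).trans hj)
    exact_mod_cast this
  have hjε : 4 / (j : ℝ) ≤ ε := by
    have h1 : (J' : ℝ) ≤ j := by exact_mod_cast (le_max_right _ _).trans hj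
    have h2 : 4 / ε < j := hJ'.trans_le h1
    rw [div_lt_iff₀ hε0] at h2
    rw [div_le_iff₀ hj0]
    linarith
  set a : ℕ → ℝ := fun p => (1 + 2 * (p * E.g j p)) * (p : ℝ) ^ (-1 - E.δ / 2) with ha
  have hg0 : ∀ p, 0 ≤ E.g j p := fun p => add_nonneg (hgu p) (hgh p)
  have ha0 : ∀ p, 0 ≤ a p := fun p =>
    mul_nonneg (by have := hg0 p; positivity) (Real.rpow_nonneg (by positivity) _)
  set P : Finset ℕ := (Icc R M).filter Nat.Prime with hP
  -- the sum of the `a p`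
  have hsum : ∑ p ∈ P, a p ≤ 2 * ε := by
    have h1 : ∑ p ∈ P, (p : ℝ) ^ (-1 - E.δ / 2) ≤ ε := hR₀ P (fun p hp => by
      rw [hP, mem_filter, mem_Icc] at hp
      exact hR.trans hp.1.1)
    have h2 : ∀ p ∈ P, a p ≤ (p : ℝ) ^ (-1 - E.δ / 2) + 2 * (E.gu j p * (p : ℝ) ^ (-E.δ / 2)) +
        2 * ((p * E.gh j p) * (p : ℝ) ^ (-1 + E.τ / 4)) := by
      intro p hp
      rw [hP, mem_filter] at hp
      have hp1 : (1 : ℝ) ≤ p := by exact_mod_cast hp.2.one_lt.le
      have hp0 : (0 : ℝ) < p := by linarith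
      have e1 : (p : ℝ) * (p : ℝ) ^ (-1 - E.δ / 2) = (p : ℝ) ^ (-E.δ / 2) := by
        nth_rewrite 1 [← Real.rpow_one (p : ℝ)]
        rw [← Real.rpow_add hp0]
        congr 1; ring
      have e2 : (p : ℝ) ^ (-1 - E.δ / 2) ≤ (p : ℝ) ^ (-1 + E.τ / 4) :=
        Real.rpow_le_rpow_of_exponent_le hp1 (by have := E.hδ; have := E.hτ; linarith)
      have e3 : a p = (p : ℝ) ^ (-1 - E.δ / 2) +
          2 * (E.gu j p * ((p : ℝ) * (p : ℝ) ^ (-1 - E.δ / 2))) +
          2 * ((p * E.gh j p) * (p : ℝ) ^ (-1 - E.δ / 2)) := by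
        simp only [ha, Env.g]; ring
      rw [e3, e1]
      have e4 : (p * E.gh j p) * (p : ℝ) ^ (-1 - E.δ / 2) ≤
          (p * E.gh j p) * (p : ℝ) ^ (-1 + E.τ / 4) :=
        mul_le_mul_of_nonneg_left e2 (mul_nonneg hp0.le (hgh p))
      linarith
    refine (Finset.sum_le_sum h2).trans ?_
    rw [Finset.sum_add_distrib, Finset.sum_add_distrib, ← Finset.mul_sum, ← Finset.mul_sum]
    have h3 := hsu P
    have h4 := hsh P
    have h5 : 4 / (j : ℝ) = 4 * (1 / j) := by ring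
    linarith
  have hmin1 : min 1 η ≤ 1 := min_le_left _ _
  have hmin2 : min 1 η ≤ η := min_le_right _ _
  have hPp : ∀ p ∈ P, p.Prime := fun p hp => by
    rw [hP, mem_filter] at hp
    exact hp.2
  have ha1 : ∀ p ∈ P, a p ≤ 1 / 2 := by
    intro p hp
    have h1 : a p ≤ ∑ p ∈ P, a p := single_le_sum (fun q _ => ha0 q) hp
    have : 2 * ε ≤ 1 / 2 := by rw [hε]; linarith
    linarith
  set F := (Icc 2 M).filter (fun t => Rough R t) with hF
  -- the terms
  have hterm : ∀ t ∈ F, E2c E j t / t * (t : ℝ) ^ (-E.δ / 2) = cm a t := by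
    intro t ht
    rw [hF, mem_filter, mem_Icc] at ht
    have ht0 : t ≠ 0 := by omega
    have ht0' : (0 : ℝ) < t := by exact_mod_cast Nat.pos_of_ne_zero ht0
    simp only [ha]
    rw [cm_mul_fun, cm_rpow _ ht0]
    have e3 : (t : ℝ) ^ (-1 - E.δ / 2) = (t : ℝ)⁻¹ * (t : ℝ) ^ (-E.δ / 2) := by
      rw [← Real.rpow_neg_one, ← Real.rpow_add ht0']
      congr 1; ring
    rw [e3]
    unfold E2c
    ring
  rw [Finset.sum_congr rfl hterm]
  have h1F : (1 : ℕ) ∉ F := by
    rw [hF, mem_filter, mem_Icc]; omega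
  have h2 := euler_le P hPp a (fun p _ => ha0 p) ha1 (insert 1 F) (by
    intro t ht
    rw [mem_insert] at ht
    rcases ht with rfl | ht
    · exact ⟨one_ne_zero, fun p hp hd => absurd (Nat.dvd_one.1 hd) hp.one_lt.ne'⟩
    · rw [hF, mem_filter, mem_Icc] at ht
      refine ⟨by omega, fun p hp hd => ?_⟩
      rw [hP, mem_filter, mem_Icc]
      refine ⟨⟨?_, (Nat.le_of_dvd (by omega) hd).trans ht.1.2⟩, hp⟩
      exact_mod_cast ht.2 p hp hd)
  rw [sum_insert h1F, cm_one] at h2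
  have hs0 : 0 ≤ ∑ p ∈ P, a p := Finset.sum_nonneg fun p _ => ha0 p
  have hs1 : 2 * ∑ p ∈ P, a p ≤ 1 := by
    have : 4 * ε ≤ 1 := by rw [hε]; linarith
    linarith
  have h5 := Real.abs_exp_sub_one_le (x := 2 * ∑ p ∈ P, a p) (by rw [abs_of_nonneg (by linarith)]; exact hs1)
  rw [abs_of_nonneg (by linarith : 0 ≤ 2 * ∑ p ∈ P, a p)] at h5
  have h6 := (le_abs_self _).trans h5
  have h7 : 8 * ε ≤ η := by rw [hε]; linarith
  linarith

end Pool.Agent.Q27.CM
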