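import Pool.Agent.Q27.CM.Sys
import Pool.Agent.W76.MO.Asm6

set_option autoImplicit false

/-!
# From the solved system to the completely multiplicative function
-/

namespace Pool.Agent.Q27.CM

open Finset Filter Topology
open scoped Classical
open Pool.Agent.W76.MO Pool.Agent.W76.MO.Env

/-- the conclusion: a completely multiplicative function with small partial sums -/
def ConclC : Prop := ∃ f : ℕ → ℝ, f 1 = 1 ∧ (∀ m n : ℕ, 0 < m → 0 < n → f (m * n) = f m * f n) ∧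
  ∃ c C : ℝ, 0 < c ∧ 0 < C ∧ ∀ N : ℕ, 1 ≤ N →
    |∑ n ∈ Icc 1 N, f n| ≤ C * (N : ℝ) ^ (-(1 / 2 : ℝ) - c)

/-- the conclusion with a pointwise bound -/
def ConclB (b c : ℝ) : Prop :=
  ∃ f : ℕ → ℝ, f 1 = 1 ∧ (∀ m n : ℕ, 0 < m → 0 < n → f (m * n) = f m * f n) ∧
    (∀ n : ℕ, 1 ≤ n → |f n| ≤ (n : ℝ) ^ (-1 + b)) ∧
    ∃ C : ℝ, 0 < C ∧ ∀ N : ℕ, 1 ≤ N → |∑ n ∈ Icc 1 N, f n| ≤ C * (N : ℝ) ^ (-(1 / 2 : ℝ) - c)

variable (E : Env)

/-- the function, real valued -/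
noncomputable def ffc (R j : ℕ) (z : ℕ × ℕ → ℝ) (n : ℕ) : ℝ :=
  if Rough R n then fcz E j z n else 0

lemma ffc_mul (R j : ℕ) (z : ℕ × ℕ → ℝ) (m n : ℕ) (hm : m ≠ 0) (hn : n ≠ 0) :
    ffc E R j z (m * n) = ffc E R j z m * ffc E R j z n := by
  unfold ffc
  have h1 := rough_mul R m n
  by_cases h2 : Rough R m
  · by_cases h3 : Rough R n
    · rw [if_pos (h1.2 ⟨h2, h3⟩), if_pos h2, if_pos h3]
      exact cm_mul _ hm hn
    · rw [if_neg (fun h => h3 (h1.1 h).2), if_neg h3, mul_zero]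
  · rw [if_neg (fun h => h2 (h1.1 h).1), if_neg h2, zero_mul]

/-- partial sums -/
noncomputable def SSc (R j : ℕ) (z : ℕ × ℕ → ℝ) (N : ℕ) : ℝ := ∑ n ∈ Icc 1 N, ffc E R j z n

lemma SSc_add (R j : ℕ) (z : ℕ × ℕ → ℝ) (M N : ℕ) (h : M ≤ N) :
    SSc E R j z N = SSc E R j z M + ∑ n ∈ Ioc M N, ffc E R j z n := by
  unfold SSc
  have h1 : Icc 1 N = Icc 1 M ∪ Ioc M N := by
    ext n
    simp only [mem_Icc, mem_union, mem_Ioc]
    omega
  rw [h1, sum_union]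
  rw [disjoint_left]
  intro n hn hn'
  rw [mem_Icc] at hn
  rw [mem_Ioc] at hn'
  omega

/-- splitting into squarefree numbers and the others -/
lemma sum_split (R j : ℕ) (z : ℕ × ℕ → ℝ) (A : Finset ℕ) (G : ℝ → ℝ) (hG : G 0 = 0) :
    ∑ n ∈ A, G (ffc E R j z n) =
      ∑ n ∈ A.filter (fun n => Squarefree n ∧ Rough R n), G (E.fz j z n) +
      ∑ n ∈ A.filter (fun n => ¬ Squarefree n ∧ Rough R n), G (fcz E j z n) := by
  rw [sum_filter, sum_filter, ← sum_add_distrib]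
  refine sum_congr rfl fun n _ => ?_
  unfold ffc
  by_cases h1 : Rough R n
  · by_cases h2 : Squarefree n
    · rw [if_pos h1, if_pos ⟨h2, h1⟩, if_neg (fun h => h.1 h2), add_zero, fcz_sq E j n z h2]
    · rw [if_pos h1, if_neg (fun h => h2 h.1), if_pos ⟨h2, h1⟩, zero_add]
  · rw [if_neg h1, if_neg (fun h => h1 h.2), if_neg (fun h => h1 h.2), hG, add_zero]

variable {E}

structure Solc (E : Env) (R j : ℕ) (z : ℕ × ℕ → ℝ) : Prop where
  z1 : ∀ x, |z x| ≤ 1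
  R2 : 2 ≤ R
  j10 : 10 ≤ j
  key : Keyc E R j
  first : ∑ n ∈ A0 R j, E.fz j z n + ∑ n ∈ N0 R j, fcz E j z n = 0
  cells : ∀ i k : ℕ, j ≤ i → k < nc E.δ i →
    ∑ n ∈ E.cs R i k, E.fz j z n + ∑ n ∈ ns E R i k, fcz E j z n = 0

lemma Solc.SS_first {R j : ℕ} {z : ℕ × ℕ → ℝ} (h : Solc E R j z) : SSc E R j z (2 ^ j) = 0 := by
  unfold SSc
  exact (sum_split E R j z (Icc 1 (2 ^ j)) (fun x => x) rfl).trans h.first

lemma Solc.SS_cell {R j : ℕ} {z : ℕ × ℕ → ℝ} (h : Solc E R j z) (i : ℕ) (hi : j ≤ i)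
    (h0 : SSc E R j z (2 ^ i) = 0) (k : ℕ) (hk : k ≤ nc E.δ i) :
    SSc E R j z (2 ^ i + k * hh E.δ i) = 0 := by
  induction k with
  | zero => simpa using h0
  | succ k ih =>
    have h1 := ih (by omega)
    rw [SSc_add E R j z (2 ^ i + k * hh E.δ i) _ (by gcongr; omega), h1, zero_add]
    have h2 := sum_split E R j z (cell E.δ i k) (fun x => x) rfl
    have h3 := h.cells i k hi (by omega)
    unfold cs ns at h3
    rw [h3] at h2
    unfold cell at h2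
    exact h2

lemma Solc.SS_block {R j : ℕ} {z : ℕ × ℕ → ℝ} (h : Solc E R j z) (i : ℕ) (hi : j ≤ i) :
    SSc E R j z (2 ^ i) = 0 := by
  induction i, hi using Nat.le_induction with
  | base => exact h.SS_first
  | succ i hi ih =>
    have h1 := h.SS_cell i hi ih (nc E.δ i) le_rfl
    rw [nc_mul E.δ E.hδ i] at h1
    rw [pow_succ, mul_two]
    exact h1

lemma Solc.ff_abs {R j : ℕ} {z : ℕ × ℕ → ℝ} (h : Solc E R j z) (i k : ℕ) (hi : j ≤ i)
    (hk : k < nc E.δ i) : ∑ n ∈ cell E.δ i k, |ffc E R j z n| ≤ 5 * E.w i := by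
  refine (sum_split E R j z (cell E.δ i k) (fun x => |x|) abs_zero).le.trans ?_
  have h2 : ∑ n ∈ (cell E.δ i k).filter (fun n => Squarefree n ∧ Rough R n), |E.fz j z n| ≤
      4 * E.w i := by
    refine le_trans (sum_le_sum fun n hn => ?_) (h.key.mass_cell i k hi hk)
    rw [mem_filter] at hn
    exact (E.fz_bound j n z z 0 h.key.u0 h.z1 h.z1 (fun x => by simp) hn.2.1).1
  have h3 : ∑ n ∈ (cell E.δ i k).filter (fun n => ¬ Squarefree n ∧ Rough R n), |fcz E j z n| ≤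
      E.w i / 16 := by
    refine le_trans (sum_le_sum fun n hn => ?_) (h.key.ns_cell i k hi hk)
    rw [mem_filter] at hn
    have hn0 : n ≠ 0 := (lt_of_le_of_lt (Nat.zero_le _) (cell_bd E.δ i k n hk hn.1).1).ne'
    exact (fcz_bound E j n z z 0 h.key.u0 h.key.h0 h.z1 h.z1 (fun x => by simp) hn0).1
  have := E.w_nonneg i
  linarith

lemma Solc.SS_le {R j : ℕ} {z : ℕ × ℕ → ℝ} (h : Solc E R j z) (N : ℕ) (hN : 2 ^ j < N) :
    |SSc E R j z N| ≤ 5 * E.w (sc N) ∧ j ≤ sc N ∧ N ≤ 2 ^ (sc N + 1) ∧ 2 ^ sc N < N := by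
  have h2j : 0 < 2 ^ j := by positivity
  set i := sc N with hi
  have h1 : 2 ^ i ≤ N - 1 := by
    rw [hi]
    exact Nat.pow_log_le_self 2 (by omega)
  have h2 : N - 1 < 2 ^ (i + 1) := by
    rw [hi]
    exact Nat.lt_pow_succ_log_self (by norm_num) (N - 1)
  have hji : j ≤ i := by
    by_contra hcon
    push Not at hcon
    have h3 : 2 ^ (i + 1) ≤ 2 ^ j := Nat.pow_le_pow_right (by norm_num) hcon
    have h4 := lt_of_lt_of_le h2 h3
    omega
  set k := (N - 1 - 2 ^ i) / hh E.δ i with hk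
  have hpos := hh_pos E.δ i
  have h3 : k * hh E.δ i ≤ N - 1 - 2 ^ i := Nat.div_mul_le_self _ _
  have h4 : N - 1 - 2 ^ i < (k + 1) * hh E.δ i := by
    have h5 : N - 1 - 2 ^ i < hh E.δ i * (k + 1) := by
      have := Nat.lt_mul_div_succ (N - 1 - 2 ^ i) hpos
      exact this
    rw [mul_comm]
    exact h5
  have hkn : k < nc E.δ i := by
    have h5 := nc_mul E.δ E.hδ i
    have h6 : k * hh E.δ i < nc E.δ i * hh E.δ i := by
      rw [h5]
      rw [pow_succ] at h2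
      omega
    exact lt_of_mul_lt_mul_right h6 (Nat.zero_le _)
  have h0 := h.SS_cell i hji (h.SS_block i hji) k hkn.le
  refine ⟨?_, hji, by omega, by omega⟩
  rw [SSc_add E R j z (2 ^ i + k * hh E.δ i) N (by omega), h0, zero_add]
  refine (abs_sum_le_sum_abs _ _).trans (le_trans ?_ (h.ff_abs i k hji hkn))
  apply sum_le_sum_of_subset_of_nonneg
  · intro n hn
    rw [mem_Ioc] at hn
    unfold cell
    rw [mem_Ioc]
    omega
  · intro n _ _
    exact abs_nonneg _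

theorem Solc.bound {R j : ℕ} {z : ℕ × ℕ → ℝ} (h : Solc E R j z) : ∃ C : ℝ, 0 < C ∧
    ∀ N : ℕ, 1 ≤ N → |SSc E R j z N| ≤ C * (N : ℝ) ^ (-(1 / 2 : ℝ) - E.δ / 2) := by
  set M : ℝ := ∑ n ∈ Icc 1 (2 ^ j), |ffc E R j z n| with hM
  have hM0 : 0 ≤ M := sum_nonneg fun _ _ => abs_nonneg _
  have hδ := E.hδ
  refine ⟨10 + M * ((2 ^ j : ℕ) : ℝ) ^ (1 / 2 + E.δ / 2), by positivity, fun N hN => ?_⟩
  have hN0 : (0 : ℝ) < N := by exact_mod_cast hN
  rcases Nat.lt_or_ge (2 ^ j) N with h1 | h1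
  · obtain ⟨h2, h3, h4, _⟩ := h.SS_le N h1
    have h5 := w_le E (sc N) N (by have := h.j10; omega) h4 hN
    have h6 : 0 < (N : ℝ) ^ (-(1 / 2 : ℝ) - E.δ / 2) := by positivity
    have h7 : 0 ≤ M * ((2 ^ j : ℕ) : ℝ) ^ (1 / 2 + E.δ / 2) := by positivity
    nlinarith
  · have h2 : |SSc E R j z N| ≤ M := by
      unfold SSc
      refine (abs_sum_le_sum_abs _ _).trans ?_
      apply sum_le_sum_of_subset_of_nonneg
      · exact Icc_subset_Icc_right h1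
      · intro n _ _
        exact abs_nonneg _
    have h3 : 1 ≤ ((2 ^ j : ℕ) : ℝ) ^ (1 / 2 + E.δ / 2) * (N : ℝ) ^ (-(1 / 2 : ℝ) - E.δ / 2) := by
      have h4 : (N : ℝ) ^ (1 / 2 + E.δ / 2) ≤ ((2 ^ j : ℕ) : ℝ) ^ (1 / 2 + E.δ / 2) := by
        apply Real.rpow_le_rpow hN0.le (by exact_mod_cast h1)
        positivity
      have h5 : (N : ℝ) ^ (1 / 2 + E.δ / 2) * (N : ℝ) ^ (-(1 / 2 : ℝ) - E.δ / 2) = 1 := by
        rw [← Real.rpow_add hN0]
        have : (1 / 2 + E.δ / 2) + (-(1 / 2 : ℝ) - E.δ / 2) = 0 := by ring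
        rw [this, Real.rpow_zero]
      have h6 : 0 ≤ (N : ℝ) ^ (-(1 / 2 : ℝ) - E.δ / 2) := by positivity
      have h7 := mul_le_mul_of_nonneg_right h4 h6
      rw [h5] at h7
      exact h7
    have h6 : 0 < (N : ℝ) ^ (-(1 / 2 : ℝ) - E.δ / 2) := by positivity
    calc |SSc E R j z N| ≤ M * 1 := by rw [mul_one]; exact h2
      _ ≤ M * (((2 ^ j : ℕ) : ℝ) ^ (1 / 2 + E.δ / 2) * (N : ℝ) ^ (-(1 / 2 : ℝ) - E.δ / 2)) :=
          mul_le_mul_of_nonneg_left h3 hM0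
      _ ≤ (10 + M * ((2 ^ j : ℕ) : ℝ) ^ (1 / 2 + E.δ / 2)) * (N : ℝ) ^ (-(1 / 2 : ℝ) - E.δ / 2) := by
          nlinarith

theorem Solc.concl {R j : ℕ} {z : ℕ × ℕ → ℝ} (h : Solc E R j z) : ConclC := by
  obtain ⟨C, hC, hb⟩ := h.bound
  have hδ := E.hδ
  refine ⟨ffc E R j z, ?_, ?_, E.δ / 2, C, by positivity, hC, hb⟩
  · unfold ffc
    rw [if_pos]
    · exact cm_one _
    · intro p hp hd
      exact absurd (Nat.dvd_one.1 hd) hp.one_lt.ne'
  · intro m n hm hn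
    exact ffc_mul E R j z m n (by omega) (by omega)

theorem Solc.conclb {R j : ℕ} {z : ℕ × ℕ → ℝ} (h : Solc E R j z)
    (hbd : ∀ n : ℕ, n ≠ 0 → |fcz E j z n| ≤ (n : ℝ) ^ (9 * E.δ) / n) :
    ConclB (9 * E.δ) (E.δ / 2) := by
  obtain ⟨C, hC, hb⟩ := h.bound
  refine ⟨ffc E R j z, ?_, ?_, ?_, C, hC, hb⟩
  · unfold ffc
    rw [if_pos]
    · exact cm_one _
    · intro p hp hd
      exact absurd (Nat.dvd_one.1 hd) hp.one_lt.ne'
  · intro m n hm hn
    exact ffc_mul E R j z m n (by omega) (by omega)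
  · intro n hn
    have hn0 : (0 : ℝ) < n := by exact_mod_cast hn
    have e : (n : ℝ) ^ (-1 + 9 * E.δ) = (n : ℝ) ^ (9 * E.δ) / n := by
      rw [Real.rpow_add hn0, Real.rpow_neg_one]
      ring
    rw [e]
    unfold ffc
    split_ifs
    · exact hbd n (by omega)
    · rw [abs_zero]
      positivity

theorem env_conclb (E : Env) (hHC : E.HCount) (hGB : E.GBounds) (hU : E.UPart) (hH : E.HPart)
    (hS : E.SPart) (hNS : NS E) : ConclB (9 * E.δ) (E.δ / 2) := by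
  obtain ⟨R, j, z, h1, h2, h3, h4, h5, h6, h7⟩ := systemc E hGB hHC (keyc E hGB hU hH hS hNS)
  exact (Solc.mk h1 h2 h3 h4 h5 h6 : Solc E R j z).conclb h7

theorem env_conclc (E : Env) (hHC : E.HCount) (hGB : E.GBounds) (hU : E.UPart) (hH : E.HPart)
    (hS : E.SPart) (hNS : NS E) : ConclC := by
  obtain ⟨R, j, z, h1, h2, h3, h4, h5, h6, -⟩ := systemc E hGB hHC (keyc E hGB hU hH hS hNS)
  exact (Solc.mk h1 h2 h3 h4 h5 h6 : Solc E R j z).concl

end Pool.Agent.Q27.CM
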