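import Pool.Agent.Q27.CM.Fz

set_option autoImplicit false

/-!
# The first block
-/

namespace Pool.Agent.Q27.CM

open Finset
open scoped Classical
open Pool.Agent.W76.MO Pool.Agent.W76.MO.Env

variable (E : Env)

/-- the rough numbers up to `2^j` which are not squarefree -/
noncomputable def N0 (R j : ℕ) : Finset ℕ := (Icc 1 (2 ^ j)).filter (fun n => ¬ Squarefree n ∧ Rough R n)

theorem gh_first (j : ℕ) (hj1 : 1 ≤ j) (hh0 : ∀ q : ℕ, 0 ≤ E.gh j q)
    (hsum : ∀ P : Finset ℕ, ∑ q ∈ P, (q * E.gh j q) * (q : ℝ) ^ (-1 + E.τ / 4) ≤ 1 / j)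
    (A : Finset ℕ) (hA : A ⊆ Icc 1 (2 ^ j)) :
    ∑ n ∈ A, ∑ p ∈ n.primeFactors, E.gh j p * (1 / ((n / p : ℕ) : ℝ)) ≤ 2 := by
  have hjr : (1 : ℝ) ≤ j := by exact_mod_cast hj1
  have h1 : ∑ n ∈ A, ∑ p ∈ n.primeFactors, E.gh j p * (1 / ((n / p : ℕ) : ℝ)) ≤
      ∑ x ∈ (Icc (1 : ℕ) (2 ^ j)) ×ˢ (Icc (1 : ℕ) (2 ^ j)), E.gh j x.1 * (1 / (x.2 : ℝ)) := by
    rw [sum_sigma']
    have hi : Set.InjOn (fun x : (_ : ℕ) × ℕ => ((x.2, x.1 / x.2) : ℕ × ℕ))
        ((A.sigma fun n => n.primeFactors : Finset ((_ : ℕ) × ℕ)) : Set ((_ : ℕ) × ℕ)) := by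
      rintro ⟨n, p⟩ hx ⟨n', p'⟩ hy hxy
      simp only [Finset.coe_sigma, Set.mem_sigma_iff, Finset.mem_coe] at hx hy
      simp only [Prod.mk.injEq] at hxy
      obtain ⟨h1, h2⟩ := hxy
      subst h1
      have e1 := Nat.div_mul_cancel (Nat.dvd_of_mem_primeFactors hx.2)
      have e2 := Nat.div_mul_cancel (Nat.dvd_of_mem_primeFactors hy.2)
      have : n = n' := by rw [← e1, ← e2, h2]
      subst this
      rfl
    have e : ∑ x ∈ A.sigma fun n => n.primeFactors,
          E.gh j x.2 * (1 / ((x.1 / x.2 : ℕ) : ℝ)) =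
        ∑ y ∈ (A.sigma fun n => n.primeFactors).image
          (fun x : (_ : ℕ) × ℕ => ((x.2, x.1 / x.2) : ℕ × ℕ)), E.gh j y.1 * (1 / (y.2 : ℝ)) := by
      rw [sum_image hi]
    rw [e]
    refine sum_le_sum_of_subset_of_nonneg ?_ fun x _ _ => mul_nonneg (hh0 _) (by positivity)
    intro y hy
    rw [mem_image] at hy
    obtain ⟨⟨n, p⟩, hx, rfl⟩ := hy
    rw [mem_sigma] at hx
    obtain ⟨hn, hp⟩ := hx
    simp only at hn hp
    have hn := hA hn
    rw [mem_Icc] at hn
    have hpp := Nat.prime_of_mem_primeFactors hp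
    have hpn := Nat.le_of_dvd hn.1 (Nat.dvd_of_mem_primeFactors hp)
    simp only [mem_product, mem_Icc]
    refine ⟨⟨hpp.one_le, hpn.trans hn.2⟩, ?_, (Nat.div_le_self _ _).trans hn.2⟩
    exact Nat.div_pos hpn hpp.pos
  refine h1.trans ?_
  rw [sum_product]
  simp only
  have h2 : ∑ x ∈ Icc (1 : ℕ) (2 ^ j), ∑ y ∈ Icc (1 : ℕ) (2 ^ j), E.gh j x * (1 / (y : ℝ)) =
      (∑ x ∈ Icc (1 : ℕ) (2 ^ j), E.gh j x) * ∑ y ∈ Icc (1 : ℕ) (2 ^ j), 1 / (y : ℝ) := by
    rw [sum_mul_sum]
  rw [h2]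
  have h3 : ∑ x ∈ Icc (1 : ℕ) (2 ^ j), E.gh j x ≤ 1 / j := by
    refine le_trans (sum_le_sum fun q hq => ?_) (hsum (Icc 1 (2 ^ j)))
    rw [mem_Icc] at hq
    have hq0 : (1 : ℝ) ≤ q := by exact_mod_cast hq.1
    have h4 : (q : ℝ) * (q : ℝ) ^ (-1 + E.τ / 4) = (q : ℝ) ^ (E.τ / 4) := by
      nth_rewrite 1 [← Real.rpow_one (q : ℝ)]
      rw [← Real.rpow_add (by linarith)]
      congr 1
      ring
    have h5 : 1 ≤ (q : ℝ) ^ (E.τ / 4) := Real.one_le_rpow hq0 (by have := E.hτ; positivity)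
    calc E.gh j q = E.gh j q * 1 := (mul_one _).symm
      _ ≤ E.gh j q * (q : ℝ) ^ (E.τ / 4) := mul_le_mul_of_nonneg_left h5 (hh0 q)
      _ = (q * E.gh j q) * (q : ℝ) ^ (-1 + E.τ / 4) := by rw [← h4]; ring
  have h6 := harm_le j
  have h7 : 0 ≤ ∑ x ∈ Icc (1 : ℕ) (2 ^ j), E.gh j x := sum_nonneg fun x _ => hh0 x
  calc (∑ x ∈ Icc (1 : ℕ) (2 ^ j), E.gh j x) * ∑ y ∈ Icc (1 : ℕ) (2 ^ j), 1 / (y : ℝ)
      ≤ (1 / j) * (1 + j) := mul_le_mul h3 h6 (sum_nonneg fun _ _ => by positivity) (by positivity)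
    _ = 1 / j + 1 := by field_simp
    _ ≤ 1 + 1 := by
        have : 1 / (j : ℝ) ≤ 1 := by rw [div_le_one (by linarith)]; exact hjr
        linarith
    _ = 2 := by norm_num

lemma tau_firstc (hGB : E.GBounds) (R : ℕ) : ∃ J : ℕ, 1 ≤ J ∧ ∀ j : ℕ, J ≤ j →
    (E.UB j).Nonempty ∧ (∀ p ∈ E.UB j, p.Prime) ∧
    ∑ n ∈ A0 R j, E.tau j n ≤ 8 * j + 2 ∧
    ∑ n ∈ N0 R j, (E2c E j n / (n : ℝ) - 1 / (n : ℝ)) ≤ 4 := by
  obtain ⟨J, hJ, hGB⟩ := hGB
  refine ⟨J + 3, by omega, fun j hj => ?_⟩
  obtain ⟨hUB, hu0, hh0, hgu, hgh, _, hghq, hsum, _⟩ := hGB j (by omega)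
  have hj1 : 1 ≤ j := by omega
  have hjr : (1 : ℝ) ≤ j := by exact_mod_cast hj1
  have hcU := E.hcU
  have hcard : 0 < ((E.UB j).card : ℝ) := lt_of_lt_of_le (by positivity) hUB
  have hUBp : ∀ p ∈ E.UB j, p.Prime := by
    intro p hp
    unfold UB at hp
    exact E.u_prime p (mem_filter.1 hp).2
  refine ⟨by exact Finset.card_pos.1 (by exact_mod_cast hcard), hUBp, ?_⟩
  -- every prime with a perturbation is large
  have hlarge : ∀ p : ℕ, E.g j p ≠ 0 → (2 : ℝ) ^ ((j : ℝ) / 2) ≤ p := by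
    intro p hp
    by_cases h1 : E.gh j p = 0
    · have h2 : E.gu j p ≠ 0 := by
        intro h2
        apply hp
        unfold g
        rw [h1, h2, add_zero]
      have h3 := (hgu p h2).2
      have h4 : (2 : ℝ) ^ ((j : ℝ) / 2) ≤ (2 : ℝ) ^ (((j - 1 : ℕ) : ℝ)) := by
        apply Real.rpow_le_rpow_of_exponent_le (by norm_num)
        rw [Nat.cast_sub hj1]
        have : (2 : ℝ) ≤ j := by exact_mod_cast (by omega : 2 ≤ j)
        push_cast
        linarith
      rw [Real.rpow_natCast] at h4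
      have h5 : ((2 ^ (j - 1) : ℕ) : ℝ) < p := by exact_mod_cast h3
      push_cast at h5
      linarith
    · exact (hghq p h1).1
  have hhalf : (2 : ℝ) ^ ((j : ℝ) / 2) * (2 : ℝ) ^ ((j : ℝ) / 2) = ((2 ^ j : ℕ) : ℝ) := by
    rw [← Real.rpow_add (by norm_num)]
    push_cast
    rw [← Real.rpow_natCast]
    congr 1
    ring
  have hinj' : ∀ p q : ℕ, E.g j p ≠ 0 → E.g j q ≠ 0 → 2 ^ j ≤ p * q := by
    intro p q hp hq
    have h1 := hlarge p hp
    have h2 := hlarge q hq
    have h4 : (0 : ℝ) < (2 : ℝ) ^ ((j : ℝ) / 2) := by positivity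
    have h6 : ((2 ^ j : ℕ) : ℝ) ≤ ((p * q : ℕ) : ℝ) := by
      rw [← hhalf]; push_cast
      exact mul_le_mul h1 h2 h4.le (h4.le.trans h1)
    exact_mod_cast h6
  have hinj : ∀ p q : ℕ, E.g j p ≠ 0 → E.g j q ≠ 0 → p ≠ q → 2 ^ j < p * q := by
    intro p q hp hq hne
    have h1 := hlarge p hp
    have h2 := hlarge q hq
    have h3 := hhalf
    have h4 : (0 : ℝ) < (2 : ℝ) ^ ((j : ℝ) / 2) := by positivity
    rcases lt_or_gt_of_ne hne with h | h
    · have h5 : (p : ℝ) < q := by exact_mod_cast h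
      have h6 : ((2 ^ j : ℕ) : ℝ) < ((p * q : ℕ) : ℝ) := by
        rw [← h3]; push_cast; nlinarith
      exact_mod_cast h6
    · have h5 : (q : ℝ) < p := by exact_mod_cast h
      have h6 : ((2 ^ j : ℕ) : ℝ) < ((p * q : ℕ) : ℝ) := by
        rw [← h3]; push_cast; nlinarith
      exact_mod_cast h6
  refine ⟨?_, ?_⟩
  · -- tau for n in A0
    have htau : ∀ n ∈ A0 R j, E.tau j n = ∑ p ∈ n.primeFactors, E.g j p * (1 / ((n / p : ℕ) : ℝ)) := by
      intro n hn
      unfold A0 at hn
      rw [mem_filter, mem_Icc] at hn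
      obtain ⟨⟨hn1, hn2⟩, hsq, _⟩ := hn
      have h1 := sum_scale n hsq (E.g j)
      unfold tau
      rw [← h1]
      refine sum_congr rfl fun p hp => ?_
      by_cases hg : E.g j p = 0
      · rw [hg, zero_mul, zero_mul]
      congr 1
      have hpp := Nat.prime_of_mem_primeFactors hp
      have hpn := Nat.dvd_of_mem_primeFactors hp
      have hsq' : Squarefree (n / p) := hsq.squarefree_of_dvd (Nat.div_dvd_of_dvd hpn)
      rw [← primeFactors_div n p hsq hp, prod_scale (n / p) hsq']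
      have h3 : ∏ q ∈ (n / p).primeFactors, (1 + q * E.g j q) = 1 := by
        refine prod_eq_one fun q hq => ?_
        have hg2 : E.g j q = 0 := by
          by_contra hg2
          rw [primeFactors_div n p hsq hp, mem_erase] at hq
          have hqp := Nat.prime_of_mem_primeFactors hq.2
          have hqn := Nat.dvd_of_mem_primeFactors hq.2
          have hcop : Nat.Coprime q p := (Nat.coprime_primes hqp hpp).2 hq.1
          have hdvd : q * p ∣ n := hcop.mul_dvd_of_dvd_of_dvd hqn hpn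
          have := Nat.le_of_dvd hn1 hdvd
          have := hinj q p hg2 hg hq.1
          omega
        rw [hg2, mul_zero, add_zero]
      rw [h3, mul_one]
    have hsplit : ∑ n ∈ A0 R j, E.tau j n =
        ∑ n ∈ A0 R j, ∑ p ∈ n.primeFactors, E.gu j p * (1 / ((n / p : ℕ) : ℝ)) +
        ∑ n ∈ A0 R j, ∑ p ∈ n.primeFactors, E.gh j p * (1 / ((n / p : ℕ) : ℝ)) := by
      rw [← sum_add_distrib]
      refine sum_congr rfl fun n hn => ?_
      rw [htau n hn, ← sum_add_distrib]
      refine sum_congr rfl fun p _ => ?_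
      unfold g
      ring
    -- first part
    have hp1 : ∑ n ∈ A0 R j, ∑ p ∈ n.primeFactors, E.gu j p * (1 / ((n / p : ℕ) : ℝ)) ≤ 8 * j := by
      have h1 : ∀ n ∈ A0 R j, ∑ p ∈ n.primeFactors, E.gu j p * (1 / ((n / p : ℕ) : ℝ)) =
          if n ∈ E.UB j then 8 * j / ((E.UB j).card : ℝ) else 0 := by
        intro n hn
        unfold A0 at hn
        rw [mem_filter, mem_Icc] at hn
        obtain ⟨⟨hn1, hn2⟩, hsq, _⟩ := hn
        have hkey : ∀ p ∈ n.primeFactors, E.gu j p ≠ 0 → p = n ∧ n ∈ E.UB j := by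
          intro p hp hg
          have hpn := Nat.dvd_of_mem_primeFactors hp
          obtain ⟨hU, hlt⟩ := hgu p hg
          obtain ⟨m, rfl⟩ := hpn
          have hjj : 2 ^ j = 2 * 2 ^ (j - 1) := by
            rw [← pow_succ']
            congr 1
            omega
          have hm : m = 1 := by
            have hm0 : m ≠ 0 := by rintro rfl; omega
            by_contra hm1
            have : 2 ≤ m := by omega
            nlinarith
          subst hm
          rw [mul_one] at hn2 ⊢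
          exact ⟨rfl, by unfold UB; exact mem_filter.2 ⟨mem_Ioc.2 ⟨hlt, hn2⟩, hU⟩⟩
        split_ifs with hmem
        · have hnp := hUBp n hmem
          rw [hnp.primeFactors, sum_singleton, Nat.div_self hnp.pos]
          have hgun : E.gu j n = 8 * j / ((E.UB j).card : ℝ) := by
            have hmem' := hmem
            unfold UB at hmem'
            rw [mem_filter, mem_Ioc] at hmem'
            unfold gu
            rw [if_pos ⟨hmem'.2, hmem'.1.1⟩, if_pos hmem'.1.2]
          rw [hgun]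
          simp
        · refine sum_eq_zero fun p hp => ?_
          by_cases hg : E.gu j p = 0
          · rw [hg, zero_mul]
          · exact absurd (hkey p hp hg).2 hmem
      rw [sum_congr rfl h1, ← sum_filter, sum_const, nsmul_eq_mul]
      have h2 : (((A0 R j).filter (fun n => n ∈ E.UB j)).card : ℝ) ≤ ((E.UB j).card : ℝ) := by
        exact_mod_cast Finset.card_le_card (fun n hn => (mem_filter.1 hn).2)
      calc (((A0 R j).filter (fun n => n ∈ E.UB j)).card : ℝ) * (8 * j / ((E.UB j).card : ℝ))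
          ≤ ((E.UB j).card : ℝ) * (8 * j / ((E.UB j).card : ℝ)) :=
            mul_le_mul_of_nonneg_right h2 (by positivity)
        _ = 8 * j := by field_simp
    have hp2 := gh_first E j hj1 hh0 hsum (A0 R j) (filter_subset _ _)
    rw [hsplit]
    linarith
  · -- the numbers which are not squarefree
    have hp2 := gh_first E j hj1 hh0 hsum (N0 R j) (filter_subset _ _)
    have hpt : ∀ n ∈ N0 R j, E2c E j n / (n : ℝ) - 1 / (n : ℝ) ≤
        2 * ∑ p ∈ n.primeFactors, E.gh j p * (1 / ((n / p : ℕ) : ℝ)) := by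
      intro n hn
      unfold N0 at hn
      rw [mem_filter, mem_Icc] at hn
      obtain ⟨⟨hn1, hn2⟩, hsq, _⟩ := hn
      have hnR : (0 : ℝ) < n := by exact_mod_cast hn1
      have hn0 : n ≠ 0 := by omega
      have hS0 : 0 ≤ ∑ p ∈ n.primeFactors, E.gh j p * (1 / ((n / p : ℕ) : ℝ)) :=
        sum_nonneg fun p _ => mul_nonneg (hh0 p) (by positivity)
      by_cases hex : ∃ p ∈ n.primeFactors, E.g j p ≠ 0
      · obtain ⟨p, hp, hg⟩ := hex
        have hpp := Nat.prime_of_mem_primeFactors hp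
        have hpn := Nat.dvd_of_mem_primeFactors hp
        have hp0 : (0 : ℝ) < p := by exact_mod_cast hpp.pos
        obtain ⟨m, rfl⟩ := hpn
        have hm0 : m ≠ 0 := by rintro rfl; omega
        -- `p` is a host prime
        have hgu0 : E.gu j p = 0 := by
          by_contra hg'
          have hlt := (hgu p hg').2
          have hjj : 2 ^ j = 2 * 2 ^ (j - 1) := by
            rw [← pow_succ']
            congr 1
            omega
          have hm : m = 1 := by
            by_contra hm1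
            have : 2 ≤ m := by omega
            nlinarith
          rw [hm, mul_one] at hsq
          exact hsq hpp.squarefree
        -- the other primes are free
        have hfree : ∀ q : ℕ, q.Prime → q ∣ m → E.g j q = 0 := by
          intro q hq hqm
          by_contra hgq
          have hle : p * q ≤ p * m := Nat.mul_le_mul_left _ (Nat.le_of_dvd (Nat.pos_of_ne_zero hm0) hqm)
          rcases eq_or_ne p q with rfl | hne
          · -- `p^2 = 2^j`
            have h1 := hinj' p p hg hg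
            have h2 : p * p = 2 ^ j := by omega
            have h3 : p ∣ 2 ^ j := ⟨p, h2.symm⟩
            have h4 := (Nat.prime_dvd_prime_iff_eq hpp Nat.prime_two).1 (hpp.dvd_of_dvd_pow h3)
            rw [h4] at h2
            have h5 : 2 ^ 3 ≤ 2 ^ j := Nat.pow_le_pow_right (by norm_num) (by omega)
            omega
          · have := hinj p q hg hgq hne
            omega
        have hE : E2c E j (p * m) = 1 + 2 * ((p : ℝ) * E.gh j p) := by
          rw [E2c_mul hpp.ne_zero hm0]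
          have h1 : E2c E j m = 1 := cm_eq_one _ m fun q hq hd => by rw [hfree q hq hd]; ring
          have h2 : E2c E j p = 1 + 2 * ((p : ℝ) * E.g j p) := cm_prime _ hpp
          rw [h1, h2, mul_one]
          unfold Env.g
          rw [hgu0, zero_add]
        have h3 : E.gh j p * (1 / ((p * m / p : ℕ) : ℝ)) ≤
            ∑ q ∈ (p * m).primeFactors, E.gh j q * (1 / ((p * m / q : ℕ) : ℝ)) :=
          single_le_sum (f := fun q : ℕ => E.gh j q * (1 / ((p * m / q : ℕ) : ℝ)))
            (fun q _ => mul_nonneg (hh0 q) (by positivity)) hp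
        rw [hE]
        have hm0' : (0 : ℝ) < m := by exact_mod_cast Nat.pos_of_ne_zero hm0
        rw [Nat.mul_div_cancel_left m hpp.pos] at h3
        have h4 : (1 + 2 * ((p : ℝ) * E.gh j p)) / ((p * m : ℕ) : ℝ) - 1 / ((p * m : ℕ) : ℝ) =
            2 * (E.gh j p * (1 / (m : ℝ))) := by
          push_cast
          field_simp
          ring
        rw [h4]
        linarith
      · push Not at hex
        have h1 : E2c E j n = 1 := cm_eq_one _ n fun q hq hd => by
          rw [hex q (Nat.mem_primeFactors.2 ⟨hq, hd, hn0⟩)]; ring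
        rw [h1, sub_self]
        linarith
    refine (sum_le_sum hpt).trans ?_
    rw [← mul_sum]
    linarith

end Pool.Agent.Q27.CM
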