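import Pool.Agent.Q27.CM.NS
import Pool.Agent.W76.MO.Asm5

set_option autoImplicit false

/-!
# The completely multiplicative perturbed function
-/

namespace Pool.Agent.Q27.CM

open Finset Filter Topology
open scoped Classical
open Pool.Agent.W76.MO

theorem cm_inv {n : ℕ} (hn : n ≠ 0) : cm (fun p => 1 / (p : ℝ)) n = 1 / (n : ℝ) := by
  have h := cm_rpow (-1) hn
  simp only [Real.rpow_neg_one, ← one_div] at h
  exact h

/-- the function -/
noncomputable def fcz (E : Env) (j : ℕ) (z : ℕ × ℕ → ℝ) (n : ℕ) : ℝ :=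
  cm (fun p => E.gz j z p - 1 / (p : ℝ)) n

variable (E : Env)

theorem fcz_sq (j n : ℕ) (z : ℕ × ℕ → ℝ) (hn : Squarefree n) : fcz E j z n = E.fz j z n :=
  cm_squarefree _ hn

theorem cm_scale (j n : ℕ) (hn : n ≠ 0) :
    cm (fun p => 1 / (p : ℝ) + 2 * E.g j p) n = E2c E j n / (n : ℝ) := by
  have h : cm (fun p => 1 / (p : ℝ) + 2 * E.g j p) n =
      cm (fun p => (1 / (p : ℝ)) * (1 + 2 * (p * E.g j p))) n := by
    refine cm_congr _ _ n fun p hp _ => ?_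
    have : (p : ℝ) ≠ 0 := by exact_mod_cast hp.ne_zero
    field_simp
  rw [h, cm_mul_fun, cm_inv hn]
  unfold E2c
  ring

theorem fcz_bound (j n : ℕ) (z z' : ℕ × ℕ → ℝ) (ε : ℝ) (hu : ∀ p, 0 ≤ E.gu j p)
    (hh0 : ∀ p, 0 ≤ E.gh j p)
    (hz : ∀ i, |z i| ≤ 1) (hz' : ∀ i, |z' i| ≤ 1)
    (hzz : ∀ i, |z i - z' i| ≤ ε) (hn : n ≠ 0) :
    |fcz E j z n| ≤ E2c E j n / (n : ℝ) ∧
      |fcz E j z n - fcz E j z' n| ≤ ε * (E2c E j n / (n : ℝ) - 1 / (n : ℝ)) := by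
  have hε : 0 ≤ ε := (abs_nonneg _).trans (hzz (0, 0))
  have h := cm_perturb (fun p => 1 / (p : ℝ)) (E.gz j z) (E.gz j z') (E.g j) ε
    (fun p => by positivity) hε
    (fun p => (E.gz_le j z 1 hz hu p).trans (le_of_eq (one_mul _)))
    (fun p => (E.gz_le j z' 1 hz' hu p).trans (le_of_eq (one_mul _)))
    (fun p => by rw [E.gz_sub]; exact E.gz_le j _ ε hzz hu p) n
  obtain ⟨h1, h2, h3⟩ := h
  rw [cm_scale E j n hn] at h2 h3
  refine ⟨h1.trans h3, h2.trans (mul_le_mul_of_nonneg_left ?_ hε)⟩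
  have h4 : 1 / (n : ℝ) ≤ cm (fun p => 1 / (p : ℝ) + E.g j p) n := by
    rw [← cm_inv hn]
    refine cm_le_cm _ _ n (fun p _ _ => by positivity) (fun p _ _ => ?_)
    have := g_nonneg hu hh0 p
    linarith
  linarith

theorem fcz_zero (j n : ℕ) (hu : ∀ p, 0 ≤ E.gu j p) (hn : n ≠ 0) :
    |fcz E j 0 n| = 1 / (n : ℝ) := by
  have h0 : ∀ p, E.gz j 0 p = 0 := fun p => by
    have := E.gz_le j 0 0 (fun i => by simp) hu p
    rw [zero_mul] at this
    exact abs_eq_zero.1 (le_antisymm this (abs_nonneg _))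
  have h1 : fcz E j 0 n = cm (fun p => (-1 : ℝ) * (1 / (p : ℝ))) n := by
    refine cm_congr _ _ n fun p _ _ => ?_
    rw [h0]; ring
  rw [h1, cm_mul_fun, cm_inv hn, abs_mul, abs_of_nonneg (by positivity : (0 : ℝ) ≤ 1 / (n : ℝ))]
  have h2 : |cm (fun _ => (-1 : ℝ)) n| = 1 := by
    unfold cm
    generalize n.primeFactorsList = l
    induction l with
    | nil => simp
    | cons a l ih =>
      rw [List.map_cons, List.prod_cons, abs_mul, ih]
      simp
  rw [h2, one_mul]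

/-- the key inequalities for the cells -/
structure Keyc (E : Env) (R j : ℕ) : Prop where
  u0 : ∀ p, 0 ≤ E.gu j p
  h0 : ∀ p, 0 ≤ E.gh j p
  tau_cell : ∀ i k : ℕ, j ≤ i → k < nc E.δ i →
    ∑ n ∈ E.cs R i k, E.tau j n ≤ E.w i + 3 * (E.w i / 16)
  mass_cell : ∀ i k : ℕ, j ≤ i → k < nc E.δ i → ∑ n ∈ E.cs R i k, E.mass j n ≤ 4 * E.w i
  inv_cell : ∀ i k : ℕ, j ≤ i → k < nc E.δ i → ∑ n ∈ E.cs R i k, 1 / (n : ℝ) ≤ E.w i / 16
  ns_cell : ∀ i k : ℕ, j ≤ i → k < nc E.δ i → ∑ n ∈ ns E R i k, E2c E j n / (n : ℝ) ≤ E.w i / 16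

theorem keyc (hGB : E.GBounds) (hU : E.UPart) (hH : E.HPart) (hS : E.SPart) (hNS : NS E) :
    ∃ R₀ : ℕ, ∀ R : ℕ, R₀ ≤ R → ∃ J : ℕ, ∀ j : ℕ, J ≤ j → Keyc E R j := by
  obtain ⟨J0, hJ0, hGB⟩ := hGB
  obtain ⟨R1, hU⟩ := hU
  obtain ⟨R2, hH⟩ := hH
  obtain ⟨J3, hS⟩ := hS
  obtain ⟨R4, hNS⟩ := hNS
  refine ⟨R1 + R2 + R4, fun R hR => ?_⟩
  obtain ⟨J1, hU⟩ := hU R (by omega)
  obtain ⟨J2, hH⟩ := hH R (by omega)
  obtain ⟨J4, hNS⟩ := hNS R (by omega)
  refine ⟨J0 + J1 + J2 + J3 + J4, fun j hj => ?_⟩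
  obtain ⟨_, hu0, hh0, _⟩ := hGB j (by omega)
  -- the three sums over a cell
  have hbig : ∀ i k : ℕ, j ≤ i → k < nc E.δ i →
      ∑ n ∈ E.cs R i k, E.big j i n ≤ E.w i + E.w i / 8 := by
    intro i k hi hk
    have a1 := hU j (by omega) i hi k hk
    have a2 := hH j (by omega) i hi k hk
    unfold Env.big
    rw [sum_add_distrib]
    refine (add_le_add a1 a2).trans (le_of_eq ?_)
    split_ifs <;> ring
  have hsm : ∀ i k : ℕ, j ≤ i → k < nc E.δ i →
      ∑ n ∈ E.cs R i k, (1 / (n : ℝ)) * ∏ p ∈ n.primeFactors, (1 + 2 * (p * E.gs j i p)) ≤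
        E.w i / 16 := by
    intro i k hi hk
    refine le_trans (sum_le_sum_of_subset_of_nonneg ?_ ?_) (hS j (by omega) i hi k hk)
    · intro n hn
      unfold Env.cs at hn
      rw [mem_filter] at hn ⊢
      exact ⟨hn.1, hn.2.1⟩
    · intro n _ _
      refine mul_nonneg (by positivity) (prod_nonneg fun p _ => ?_)
      have := mul_nonneg (Nat.cast_nonneg (α := ℝ) p) (E.gs_nonneg j i p (hu0 p) (hh0 p))
      linarith
  have hsq : ∀ i k n : ℕ, n ∈ E.cs R i k → Squarefree n := fun i k n hn => by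
    unfold Env.cs at hn
    exact (mem_filter.1 hn).2.1
  refine ⟨hu0, hh0, ?_, ?_, ?_, ?_⟩
  · intro i k hi hk
    have hw := E.w_pos i (by omega)
    calc ∑ n ∈ E.cs R i k, E.tau j n
        ≤ ∑ n ∈ E.cs R i k, (E.big j i n +
            (1 / (n : ℝ)) * ∏ p ∈ n.primeFactors, (1 + 2 * (p * E.gs j i p))) :=
          sum_le_sum fun n hn => (E.point j i n hu0 hh0 (hsq i k n hn)).1
      _ ≤ (E.w i + E.w i / 8) + E.w i / 16 := by
          rw [sum_add_distrib]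
          exact add_le_add (hbig i k hi hk) (hsm i k hi hk)
      _ ≤ _ := by linarith
  · intro i k hi hk
    have hw := E.w_pos i (by omega)
    calc ∑ n ∈ E.cs R i k, E.mass j n
        ≤ ∑ n ∈ E.cs R i k, (2 * E.big j i n +
            (1 / (n : ℝ)) * ∏ p ∈ n.primeFactors, (1 + 2 * (p * E.gs j i p))) :=
          sum_le_sum fun n hn => (E.point j i n hu0 hh0 (hsq i k n hn)).2.1
      _ ≤ 2 * (E.w i + E.w i / 8) + E.w i / 16 := by
          rw [sum_add_distrib, ← mul_sum]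
          exact add_le_add (mul_le_mul_of_nonneg_left (hbig i k hi hk) (by norm_num))
            (hsm i k hi hk)
      _ ≤ _ := by linarith
  · intro i k hi hk
    have hw := E.w_pos i (by omega)
    calc ∑ n ∈ E.cs R i k, 1 / (n : ℝ)
        ≤ ∑ n ∈ E.cs R i k, (1 / (n : ℝ)) * ∏ p ∈ n.primeFactors, (1 + 2 * (p * E.gs j i p)) := by
          refine sum_le_sum fun n _ => ?_
          have h1 := one_le_prod1 n.primeFactors (fun p => 2 * (p * E.gs j i p)) fun p => by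
            have := mul_nonneg (Nat.cast_nonneg (α := ℝ) p) (E.gs_nonneg j i p (hu0 p) (hh0 p))
            linarith
          have h2 : (0 : ℝ) ≤ 1 / (n : ℝ) := by positivity
          nlinarith
      _ ≤ E.w i / 16 := hsm i k hi hk
  · intro i k hi hk
    exact hNS j (by omega) i hi k hk

end Pool.Agent.Q27.CM
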