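import Pool.Agent.Q27.CM.Defs

/-!
# MP_a187e6_nt, task H1: hosts of much smaller scale
-/

set_option autoImplicit false

namespace Pool.Agent.Q27.CM.H1

open Finset Filter Topology
open scoped Classical
open Pool.Agent.W76.MO Pool.Agent.Q27.CM

/-- polynomial growth is dominated by exponential growth -/
theorem poly_le_two_rpow (c : ℝ) (hc : 0 < c) (C : ℝ) (K : ℕ) :
    ∃ J : ℕ, ∀ i : ℕ, J ≤ i → C * (i : ℝ) ^ K ≤ (2 : ℝ) ^ (c * i) := by
  have hb : 0 < c * Real.log 2 := mul_pos hc (Real.log_pos (by norm_num))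
  have h1 := (isLittleO_pow_exp_pos_mul_atTop K hb).comp_tendsto tendsto_natCast_atTop_atTop
  have hpos : (0 : ℝ) < 1 / (|C| + 1) := by positivity
  have h2 := h1.bound hpos
  obtain ⟨J, hJ⟩ := eventually_atTop.mp h2
  refine ⟨J, fun i hi => ?_⟩
  have h3 := hJ i hi
  simp only [Function.comp_apply, Real.norm_eq_abs] at h3
  rw [abs_of_nonneg (by positivity), abs_of_pos (Real.exp_pos _)] at h3
  have h4 : (2 : ℝ) ^ (c * i) = Real.exp (c * Real.log 2 * i) := by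
    rw [Real.rpow_def_of_pos (by norm_num)]
    ring_nf
  rw [h4]
  have h5 : (|C| + 1) * (i : ℝ) ^ K ≤ Real.exp (c * Real.log 2 * i) := by
    rw [one_div, inv_mul_eq_div, le_div_iff₀ (by positivity)] at h3
    linarith
  have h6 : C * (i : ℝ) ^ K ≤ (|C| + 1) * (i : ℝ) ^ K := by
    apply mul_le_mul_of_nonneg_right _ (by positivity)
    have := le_abs_self C
    linarith
  linarith

/-- multiples in an interval -/
theorem card_mult_le (a L q : ℕ) (hq : 0 < q) :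
    ((Ioc a (a + L)).filter (fun n => q ∣ n)).card ≤ L / q + 1 := by
  have h1 : ((Ioc 0 (a + L)).filter (fun n => q ∣ n)).card = (a + L) / q :=
    Nat.Ioc_filter_dvd_card_eq_div _ _
  have h2 : ((Ioc 0 a).filter (fun n => q ∣ n)).card = a / q :=
    Nat.Ioc_filter_dvd_card_eq_div _ _
  have h3 : ((Ioc 0 (a + L)).filter (fun n => q ∣ n)) =
      ((Ioc 0 a).filter (fun n => q ∣ n)) ∪ ((Ioc a (a + L)).filter (fun n => q ∣ n)) := by
    ext n
    simp only [mem_filter, mem_union, mem_Ioc]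
    constructor
    · rintro ⟨⟨h, h'⟩, h''⟩
      by_cases hn : n ≤ a
      · exact Or.inl ⟨⟨h, hn⟩, h''⟩
      · exact Or.inr ⟨⟨by omega, h'⟩, h''⟩
    · rintro (⟨⟨h, h'⟩, h''⟩ | ⟨⟨h, h'⟩, h''⟩)
      · exact ⟨⟨h, by omega⟩, h''⟩
      · exact ⟨⟨by omega, h'⟩, h''⟩
  have h4 : Disjoint ((Ioc 0 a).filter (fun n => q ∣ n))
      ((Ioc a (a + L)).filter (fun n => q ∣ n)) := by
    rw [Finset.disjoint_left]
    intro n hn hn'
    simp only [mem_filter, mem_Ioc] at hn hn'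
    omega
  rw [h3, card_union_of_disjoint h4, h2] at h1
  have h5 : (a + L) / q ≤ a / q + L / q + 1 := by
    rw [Nat.add_div hq]
    split_ifs <;> omega
  omega

theorem E2_nonneg (E : Env) {j : ℕ}
    (h0 : ∀ p : ℕ, 0 ≤ E.gu j p) (h0' : ∀ q : ℕ, 0 ≤ E.gh j q) (m : ℕ) : 0 ≤ E2c E j m :=
  E2c_nonneg h0 h0' m

/-- bound for `E2c` -/
theorem E2_le (E : Env) {j : ℕ}
    (h0 : ∀ p : ℕ, 0 ≤ E.gu j p) (h0' : ∀ q : ℕ, 0 ≤ E.gh j q)
    (hf : ∀ p : ℕ, p.Prime → 1 + 2 * (p * E.g j p) ≤ (p : ℝ) ^ (9 * E.δ)) (m : ℕ) (hm : 1 ≤ m) :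
    E2c E j m ≤ (m : ℝ) ^ (9 * E.δ) := by
  rw [← cm_rpow _ (by omega : m ≠ 0)]
  exact cm_le_cm _ _ m (fun p _ _ => by have := one_le_fac h0 h0' p; linarith)
    (fun p hp _ => hf p hp)

theorem w_nonneg (E : Env) (i : ℕ) : 0 ≤ E.w i := by
  unfold Env.w
  positivity

/-- elements of a cell are at most `2 ^ (i+1)` -/
theorem cell_le {δ : ℝ} {i k n : ℕ} (hk : k < nc δ i) (hn : n ∈ cell δ i k) :
    2 ^ i < n ∧ n ≤ 2 ^ (i + 1) := by
  unfold cell at hn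
  rw [mem_Ioc] at hn
  have h1 : (k + 1) * hh δ i ≤ 2 ^ i := by
    calc (k + 1) * hh δ i ≤ nc δ i * hh δ i := Nat.mul_le_mul_right _ hk
      _ ≤ 2 ^ i := Nat.div_mul_le_self _ _
  have h2 : 2 ^ (i + 1) = 2 * 2 ^ i := by ring
  constructor
  · have : 0 ≤ k * hh δ i := Nat.zero_le _
    omega
  · omega

/-- the bound for `HT` -/
theorem HT_le (E : Env) {j : ℕ}
    (h0 : ∀ p : ℕ, 0 ≤ E.gu j p) (h0' : ∀ q : ℕ, 0 ≤ E.gh j q)
    (hf : ∀ p : ℕ, p.Prime → 1 + 2 * (p * E.g j p) ≤ (p : ℝ) ^ (9 * E.δ))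
    (R i k i' k' : ℕ) (hk : k < nc E.δ i) (hk' : k' < nc E.δ i') :
    HTc E j R i k i' k' (fun _ _ => True) ≤
      E.w i' * ((2 : ℝ) ^ (i' + 1) / 2 ^ i) * (2 * (2 : ℝ) ^ (9 * E.δ * i)) *
        (hh E.δ i * (2 : ℝ) ^ (-(1 / 2 + E.τ) * i') + 1) := by
  have hδ := E.hδ
  have hτ := E.hτ
  have hδτ := E.hδ'
  have hτ1 := E.hτ'
  set N : ℕ := (E.Host j i' k').card with hN
  set B : ℝ := E.w i' / (N : ℝ) * ((2 : ℝ) ^ (i' + 1) / 2 ^ i) * (2 * (2 : ℝ) ^ (9 * E.δ * i))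
    with hB
  have hw := w_nonneg E i'
  have hB0 : 0 ≤ B := by positivity
  unfold HTc
  beta_reduce
  -- each term is at most `B`
  have hterm : ∀ u ∈ ((E.Host j i' k') ×ˢ (ns E R i k)).filter (fun u : ℕ × ℕ =>
      lp u.1 ∣ u.2 ∧ (2 : ℝ) ^ (1 / 20 * (i : ℝ)) < lp u.1 ∧ True),
      E.w i' / ((E.Host j i' k').card : ℝ) * ((u.1 : ℝ) / u.2) * E2c E j (u.2 / lp u.1) ≤ B := by
    rintro ⟨n₁, n⟩ hu
    simp only [mem_filter, mem_product, and_true] at hu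
    obtain ⟨⟨hn₁, hn⟩, hdvd, -⟩ := hu
    unfold Env.Host at hn₁
    unfold ns at hn
    rw [mem_filter] at hn₁ hn
    obtain ⟨h1a, h1b⟩ := cell_le hk' hn₁.1
    obtain ⟨h2a, h2b⟩ := cell_le hk hn.1
    have hlp : 0 < lp n₁ := by
      have h := hn₁.2.1
      have h' : (0 : ℝ) < (2 : ℝ) ^ ((1 / 2 + E.τ) * (i' : ℝ)) := by positivity
      exact_mod_cast h'.trans_le h
    have hn0 : 0 < n := lt_of_le_of_lt (Nat.zero_le _) h2a
    have hq1 : 1 ≤ n / lp n₁ := Nat.div_pos (Nat.le_of_dvd hn0 hdvd) hlp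
    have hE2 : E2c E j (n / lp n₁) ≤ 2 * (2 : ℝ) ^ (9 * E.δ * i) := by
      refine (E2_le E h0 h0' hf _ hq1).trans ?_
      have h3 : ((n / lp n₁ : ℕ) : ℝ) ≤ 2 ^ (i + 1) := by
        have : n / lp n₁ ≤ 2 ^ (i + 1) := (Nat.div_le_self _ _).trans h2b
        exact_mod_cast this
      calc ((n / lp n₁ : ℕ) : ℝ) ^ (9 * E.δ) ≤ ((2 : ℝ) ^ (i + 1)) ^ (9 * E.δ) :=
            Real.rpow_le_rpow (by positivity) h3 (by positivity)
        _ = (2 : ℝ) ^ (9 * E.δ) * (2 : ℝ) ^ (9 * E.δ * i) := by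
            rw [← Real.rpow_natCast 2 (i + 1), ← Real.rpow_mul (by norm_num),
              ← Real.rpow_add (by norm_num)]
            push_cast
            ring_nf
        _ ≤ 2 * (2 : ℝ) ^ (9 * E.δ * i) := by
            apply mul_le_mul_of_nonneg_right _ (by positivity)
            calc (2 : ℝ) ^ (9 * E.δ) ≤ (2 : ℝ) ^ (1 : ℝ) :=
                  Real.rpow_le_rpow_of_exponent_le (by norm_num) (by linarith)
              _ = 2 := Real.rpow_one 2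
    have hratio : (n₁ : ℝ) / n ≤ (2 : ℝ) ^ (i' + 1) / 2 ^ i := by
      have h1 : (n₁ : ℝ) ≤ (2 : ℝ) ^ (i' + 1) := by exact_mod_cast h1b
      have h2 : (2 : ℝ) ^ i ≤ n := by exact_mod_cast h2a.le
      exact div_le_div₀ (by positivity) h1 (by positivity) h2
    rw [hB]
    have hE20 := E2_nonneg E h0 h0' (n / lp n₁) (j := j)
    show E.w i' / (N : ℝ) * ((n₁ : ℝ) / n) * E2c E j (n / lp n₁) ≤ _
    gcongr
  have hsum := sum_le_card_nsmul _ _ B hterm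
  refine le_trans (le_of_eq (Finset.sum_congr (by ext u; simp only [mem_filter]) (fun _ _ => rfl)))
    (hsum.trans ?_)
  rw [nsmul_eq_mul]
  -- the number of terms
  have hcard : ((((E.Host j i' k') ×ˢ (ns E R i k)).filter (fun u : ℕ × ℕ =>
      lp u.1 ∣ u.2 ∧ (2 : ℝ) ^ (1 / 20 * (i : ℝ)) < lp u.1 ∧ True)).card : ℝ) ≤
      N * (hh E.δ i * (2 : ℝ) ^ (-(1 / 2 + E.τ) * i') + 1) := by
    have h1 : (((E.Host j i' k') ×ˢ (ns E R i k)).filter (fun u : ℕ × ℕ =>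
      lp u.1 ∣ u.2 ∧ (2 : ℝ) ^ (1 / 20 * (i : ℝ)) < lp u.1 ∧ True)) ⊆
      (E.Host j i' k').biUnion (fun n₁ => ((cell E.δ i k).filter (fun n => lp n₁ ∣ n)).image
        (fun n => (n₁, n))) := by
      rintro ⟨n₁, n⟩ hu
      simp only [mem_filter, mem_product, and_true] at hu
      obtain ⟨⟨hn₁, hn⟩, hdvd, -⟩ := hu
      unfold ns at hn
      rw [mem_filter] at hn
      rw [mem_biUnion]
      exact ⟨n₁, hn₁, mem_image.mpr ⟨n, mem_filter.mpr ⟨hn.1, hdvd⟩, rfl⟩⟩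
    have h2 := (card_le_card h1).trans card_biUnion_le
    have h3 : (((((E.Host j i' k') ×ˢ (ns E R i k)).filter (fun u : ℕ × ℕ =>
      lp u.1 ∣ u.2 ∧ (2 : ℝ) ^ (1 / 20 * (i : ℝ)) < lp u.1 ∧ True)).card : ℕ) : ℝ) ≤
      ∑ n₁ ∈ E.Host j i' k', ((((cell E.δ i k).filter (fun n => lp n₁ ∣ n)).image
        (fun n => (n₁, n))).card : ℝ) := by
      exact_mod_cast h2
    refine h3.trans ?_
    have h4 : ∀ n₁ ∈ E.Host j i' k', ((((cell E.δ i k).filter (fun n => lp n₁ ∣ n)).image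
        (fun n => (n₁, n))).card : ℝ) ≤ hh E.δ i * (2 : ℝ) ^ (-(1 / 2 + E.τ) * i') + 1 := by
      intro n₁ hn₁
      unfold Env.Host at hn₁
      rw [mem_filter] at hn₁
      have h := hn₁.2.1
      have h' : (0 : ℝ) < (2 : ℝ) ^ ((1 / 2 + E.τ) * (i' : ℝ)) := by positivity
      have hlp : 0 < lp n₁ := by exact_mod_cast h'.trans_le h
      have hlpr : (0 : ℝ) < lp n₁ := by exact_mod_cast hlp
      have h5 : (((cell E.δ i k).filter (fun n => lp n₁ ∣ n)).image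
        (fun n => (n₁, n))).card ≤ hh E.δ i / lp n₁ + 1 := by
        refine card_image_le.trans ?_
        have := card_mult_le (2 ^ i + k * hh E.δ i) (hh E.δ i) (lp n₁) hlp
        unfold cell
        have he : 2 ^ i + (k + 1) * hh E.δ i = 2 ^ i + k * hh E.δ i + hh E.δ i := by ring
        rw [he]
        exact this
      have h6 : ((hh E.δ i / lp n₁ : ℕ) : ℝ) ≤ hh E.δ i / (lp n₁ : ℝ) := Nat.cast_div_le
      have h7 : (hh E.δ i : ℝ) / (lp n₁ : ℝ) ≤ hh E.δ i * (2 : ℝ) ^ (-(1 / 2 + E.τ) * i') := by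
        rw [div_eq_mul_inv]
        apply mul_le_mul_of_nonneg_left _ (by positivity)
        rw [neg_mul, Real.rpow_neg (by norm_num)]
        exact inv_anti₀ h' h
      calc ((((cell E.δ i k).filter (fun n => lp n₁ ∣ n)).image
        (fun n => (n₁, n))).card : ℝ) ≤ ((hh E.δ i / lp n₁ + 1 : ℕ) : ℝ) := by exact_mod_cast h5
        _ = ((hh E.δ i / lp n₁ : ℕ) : ℝ) + 1 := by push_cast; ring
        _ ≤ _ := by linarith
    refine (sum_le_card_nsmul _ _ _ h4).trans ?_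
    rw [nsmul_eq_mul]
  refine (mul_le_mul_of_nonneg_right hcard hB0).trans ?_
  rw [hB]
  by_cases hN0 : N = 0
  · rw [hN0]
    simp only [Nat.cast_zero, zero_mul, div_zero]
    positivity
  · have hN1 : (N : ℝ) ≠ 0 := by exact_mod_cast hN0
    apply le_of_eq
    field_simp

/-- `HT` vanishes if `i'` is very small -/
theorem HT_zero (E : Env) (j R i k i' k' : ℕ) (P : ℕ → ℕ → Prop) (hk' : k' < nc E.δ i')
    (h : (i' : ℝ) + 1 ≤ 1 / 20 * i) : HTc E j R i k i' k' P = 0 := by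
  unfold HTc
  apply sum_eq_zero
  rintro ⟨n₁, n⟩ hu
  exfalso
  simp only [mem_filter, mem_product] at hu
  obtain ⟨⟨hn₁, hn⟩, hdvd, hlt, -⟩ := hu
  unfold Env.Host at hn₁
  rw [mem_filter] at hn₁
  obtain ⟨h1a, h1b⟩ := cell_le hk' hn₁.1
  have h2 : (lp n₁ : ℝ) ≤ (2 : ℝ) ^ (i' + 1) := by
    have : lp n₁ ≤ 2 ^ (i' + 1) := hn₁.2.2.1.le.trans h1b
    exact_mod_cast this
  have h3 : (2 : ℝ) ^ (i' + 1) ≤ (2 : ℝ) ^ (1 / 20 * (i : ℝ)) := by
    rw [← Real.rpow_natCast 2 (i' + 1)]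
    apply Real.rpow_le_rpow_of_exponent_le (by norm_num)
    push_cast
    exact h
  linarith

theorem hh_le (δ : ℝ) (hδ : δ ≤ 1 / 2) (i : ℕ) :
    (hh δ i : ℝ) ≤ (2 : ℝ) ^ ((1 / 2 - δ) * i) := by
  unfold hh
  push_cast
  rw [← Real.rpow_natCast]
  apply Real.rpow_le_rpow_of_exponent_le (by norm_num)
  apply Nat.floor_le
  have : 0 ≤ 1 / 2 - δ := by linarith
  positivity

/-- task H1 -/
theorem h1 (E : Env) (hGB : E.GBounds) : HP1c E := by
  have hδ := E.hδ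
  have hτ := E.hτ
  have hδτ := E.hδ'
  have hτ1 := E.hτ'
  obtain ⟨J₁, hJ₁1, hJ₁⟩ := hGB
  obtain ⟨J₂, hJ₂⟩ := poly_le_two_rpow (E.τ / 25) (by positivity) (6400 * 12 * 5) 41
  refine ⟨max (max J₁ J₂) (max E.i₁ 2), fun j hj R i k hji hk => ?_⟩
  have hjJ₁ : J₁ ≤ j := le_trans (le_trans (le_max_left _ _) (le_max_left _ _)) hj
  have hjJ₂ : J₂ ≤ j := le_trans (le_trans (le_max_right _ _) (le_max_left _ _)) hj
  have hji₁ : E.i₁ ≤ j := le_trans (le_trans (le_max_left _ _) (le_max_right _ _)) hj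
  have hj2 : 2 ≤ j := le_trans (le_trans (le_max_right _ _) (le_max_right _ _)) hj
  obtain ⟨-, h0, h0', hgu, hgh, hU, hH, -, -⟩ := hJ₁ j hjJ₁
  have hf := fun p hp => fac_le hgu hgh hU hH p hp
  have hi2 : 2 ≤ i := hj2.trans hji
  have hi1 : (1 : ℝ) ≤ i := by exact_mod_cast (by omega : 1 ≤ i)
  have hi0 : (0 : ℝ) < i := by linarith
  -- the bound for one value of `i'`
  set T : ℝ := 12 * (2 : ℝ) ^ (-(1 / 2 + E.δ / 2) * i) * (2 : ℝ) ^ (-(E.τ / 25) * i) with hT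
  have hone : ∀ i' ∈ (range (2 * i + 3)).filter (fun i' : ℕ => j ≤ i' ∧ (i' : ℝ) < (1 - E.τ) * i),
      ∑ k' ∈ E.Bad i', HTc E j R i k i' k' (fun _ _ => True) ≤ T := by
    intro i' hi'
    rw [mem_filter] at hi'
    obtain ⟨-, hji', hi'lt⟩ := hi'
    have hi'1 : (1 : ℝ) ≤ i' := by exact_mod_cast (by omega : 1 ≤ i')
    by_cases hsmall : (i' : ℝ) + 1 ≤ 1 / 20 * i
    · have : ∑ k' ∈ E.Bad i', HTc E j R i k i' k' (fun _ _ => True) = 0 := by
        apply sum_eq_zero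
        intro k' hk'
        unfold Env.Bad at hk'
        rw [mem_filter, mem_range] at hk'
        exact HT_zero E j R i k i' k' _ hk'.1 hsmall
      rw [this]
      positivity
    · push Not at hsmall
      have hsum : ∑ k' ∈ E.Bad i', HTc E j R i k i' k' (fun _ _ => True) ≤
          ((E.Bad i').card : ℝ) * (E.w i' * ((2 : ℝ) ^ (i' + 1) / 2 ^ i) *
            (2 * (2 : ℝ) ^ (9 * E.δ * i)) *
            (hh E.δ i * (2 : ℝ) ^ (-(1 / 2 + E.τ) * i') + 1)) := by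
        rw [← nsmul_eq_mul]
        apply sum_le_card_nsmul
        intro k' hk'
        unfold Env.Bad at hk'
        rw [mem_filter, mem_range] at hk'
        exact HT_le E h0 h0' hf R i k i' k' hk hk'.1
      have hbad : ((E.Bad i').card : ℝ) ≤ (2 : ℝ) ^ (3 * E.δ * i') :=
        E.u_bad i' (hji₁.trans hji')
      have hw : E.w i' ≤ (2 : ℝ) ^ (-(1 / 2 + E.δ / 2) * i') := by
        unfold Env.w
        apply div_le_self (by positivity)
        exact one_le_pow₀ hi'1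
      have hw0 := w_nonneg E i'
      have hh1 := hh_le E.δ (by linarith) i
      have hp1 : ((2 : ℝ) ^ (i' + 1) / 2 ^ i) = 2 * (2 : ℝ) ^ ((i' : ℝ) - i) := by
        rw [Real.rpow_sub (by norm_num), Real.rpow_natCast, Real.rpow_natCast, pow_succ]
        ring
      have hstep : ∑ k' ∈ E.Bad i', HTc E j R i k i' k' (fun _ _ => True) ≤
          (2 : ℝ) ^ (3 * E.δ * i') * ((2 : ℝ) ^ (-(1 / 2 + E.δ / 2) * i') *
            (2 * (2 : ℝ) ^ ((i' : ℝ) - i)) * (2 * (2 : ℝ) ^ (9 * E.δ * i)) *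
            ((2 : ℝ) ^ ((1 / 2 - E.δ) * i) * (2 : ℝ) ^ (-(1 / 2 + E.τ) * i') + 1)) := by
        refine hsum.trans ?_
        rw [hp1]
        gcongr
      refine hstep.trans ?_
      have hexp : (2 : ℝ) ^ (3 * E.δ * i') * ((2 : ℝ) ^ (-(1 / 2 + E.δ / 2) * i') *
            (2 * (2 : ℝ) ^ ((i' : ℝ) - i)) * (2 * (2 : ℝ) ^ (9 * E.δ * i)) *
            ((2 : ℝ) ^ ((1 / 2 - E.δ) * i) * (2 : ℝ) ^ (-(1 / 2 + E.τ) * i') + 1)) =
          4 * (2 : ℝ) ^ (3 * E.δ * i' + (-(1 / 2 + E.δ / 2) * i') + ((i' : ℝ) - i) +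
            9 * E.δ * i + (1 / 2 - E.δ) * i + (-(1 / 2 + E.τ) * i')) +
          4 * (2 : ℝ) ^ (3 * E.δ * i' + (-(1 / 2 + E.δ / 2) * i') + ((i' : ℝ) - i) +
            9 * E.δ * i) := by
        rw [Real.rpow_add (by norm_num), Real.rpow_add (by norm_num), Real.rpow_add (by norm_num),
          Real.rpow_add (by norm_num), Real.rpow_add (by norm_num)]
        ring
      rw [hexp, hT, mul_assoc 12, ← Real.rpow_add (by norm_num)]
      have hA : (2 : ℝ) ^ (3 * E.δ * i' + (-(1 / 2 + E.δ / 2) * i') + ((i' : ℝ) - i) +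
            9 * E.δ * i + (1 / 2 - E.δ) * i + (-(1 / 2 + E.τ) * i')) ≤
          2 * (2 : ℝ) ^ (-(1 / 2 + E.δ / 2) * i + -(E.τ / 25) * i) := by
        have : 2 * (2 : ℝ) ^ (-(1 / 2 + E.δ / 2) * i + -(E.τ / 25) * i) =
            (2 : ℝ) ^ (1 + (-(1 / 2 + E.δ / 2) * i + -(E.τ / 25) * i)) := by
          rw [Real.rpow_add (by norm_num) 1, Real.rpow_one]
        rw [this]
        apply Real.rpow_le_rpow_of_exponent_le (by norm_num)
        nlinarith [mul_pos hτ hi0, mul_pos hδ hi0, mul_nonneg (by linarith : 0 ≤ E.τ / 1000 - E.δ)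
          hi0.le, mul_nonneg (by linarith : 0 ≤ E.τ - 5 / 2 * E.δ)
          (by linarith : 0 ≤ (i' : ℝ) + 1 - 1 / 20 * i)]
      have hB : (2 : ℝ) ^ (3 * E.δ * i' + (-(1 / 2 + E.δ / 2) * i') + ((i' : ℝ) - i) +
            9 * E.δ * i) ≤ (2 : ℝ) ^ (-(1 / 2 + E.δ / 2) * i + -(E.τ / 25) * i) := by
        apply Real.rpow_le_rpow_of_exponent_le (by norm_num)
        nlinarith [mul_pos hτ hi0, mul_pos hδ hi0, mul_nonneg (by linarith : 0 ≤ E.τ / 1000 - E.δ)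
          hi0.le, mul_nonneg (by linarith : 0 ≤ 1 / 2 + 5 / 2 * E.δ)
          (by linarith : 0 ≤ (1 - E.τ) * i - i'), mul_pos (mul_pos hτ hδ) hi0]
      linarith
  have hsum := sum_le_card_nsmul _ _ T hone
  refine hsum.trans ?_
  rw [nsmul_eq_mul]
  have hT0 : 0 ≤ T := by positivity
  have hc : ((((range (2 * i + 3)).filter (fun i' : ℕ => j ≤ i' ∧
      (i' : ℝ) < (1 - E.τ) * i)).card : ℕ) : ℝ) ≤ 5 * i := by
    have h := card_filter_le (range (2 * i + 3)) (fun i' : ℕ => j ≤ i' ∧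
      (i' : ℝ) < (1 - E.τ) * i)
    rw [card_range] at h
    have h' : ((range (2 * i + 3)).filter (fun i' : ℕ => j ≤ i' ∧
      (i' : ℝ) < (1 - E.τ) * i)).card ≤ 5 * i := by omega
    exact_mod_cast h'
  refine (mul_le_mul_of_nonneg_right hc hT0).trans ?_
  have hpoly := hJ₂ i (hjJ₂.trans hji)
  have hpow : (0 : ℝ) < (i : ℝ) ^ 40 := by positivity
  unfold Env.w
  rw [div_div, le_div_iff₀ (by positivity), hT]
  have hneg : (2 : ℝ) ^ (-(E.τ / 25) * (i : ℝ)) * (2 : ℝ) ^ (E.τ / 25 * (i : ℝ)) = 1 := by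
    rw [← Real.rpow_add (by norm_num)]
    have : -(E.τ / 25) * (i : ℝ) + E.τ / 25 * (i : ℝ) = 0 := by ring
    rw [this, Real.rpow_zero]
  have hA0 : (0 : ℝ) < (2 : ℝ) ^ (-(1 / 2 + E.δ / 2) * (i : ℝ)) := by positivity
  have hB0 : (0 : ℝ) < (2 : ℝ) ^ (-(E.τ / 25) * (i : ℝ)) := by positivity
  calc 5 * (i : ℝ) * (12 * (2 : ℝ) ^ (-(1 / 2 + E.δ / 2) * (i : ℝ)) *
        (2 : ℝ) ^ (-(E.τ / 25) * (i : ℝ))) * ((i : ℝ) ^ 40 * 6400)
      = (2 : ℝ) ^ (-(1 / 2 + E.δ / 2) * (i : ℝ)) * ((2 : ℝ) ^ (-(E.τ / 25) * (i : ℝ)) *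
        (6400 * 12 * 5 * (i : ℝ) ^ 41)) := by ring
    _ ≤ (2 : ℝ) ^ (-(1 / 2 + E.δ / 2) * (i : ℝ)) * ((2 : ℝ) ^ (-(E.τ / 25) * (i : ℝ)) *
        (2 : ℝ) ^ (E.τ / 25 * (i : ℝ))) := by
        gcongr
    _ = (2 : ℝ) ^ (-(1 / 2 + E.δ / 2) * (i : ℝ)) := by rw [hneg, mul_one]

end Pool.Agent.Q27.CM.H1
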