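import Pool.Agent.Q27.CM.SA
import Pool.Agent.Q27.CM.ES

set_option autoImplicit false

/-!
# The small host primes, with multiplicities; the contribution of the small primes
-/

namespace Pool.Agent.Q27.CM

open Finset Filter Topology
open scoped Classical
open Pool.Agent.W76.MO Pool.Agent.W683.MO

/-- a divisor of a given size -/
theorem exists_sublist (l : List ℕ) (Z y : ℝ) (hZ : 1 ≤ Z) (hl : ∀ a ∈ l, (a : ℝ) ≤ y)
    (h : Z < (l.prod : ℕ)) : ∃ l' : List ℕ, l'.Sublist l ∧ Z < ((l'.prod : ℕ) : ℝ) ∧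
      ((l'.prod : ℕ) : ℝ) ≤ Z * y := by
  induction l with
  | nil => simp at h; linarith
  | cons a l ih =>
    by_cases h1 : Z < ((l.prod : ℕ) : ℝ)
    · obtain ⟨l', h2, h3, h4⟩ := ih (fun a ha => hl a (by simp [ha])) h1
      exact ⟨l', h2.cons a, h3, h4⟩
    · push Not at h1
      refine ⟨a :: l, List.Sublist.refl _, h, ?_⟩
      rw [List.prod_cons]
      push_cast
      have h2 := hl a (by simp)
      have h3 : (0 : ℝ) ≤ a := Nat.cast_nonneg a
      have h4 : (0 : ℝ) ≤ ((l.prod : ℕ) : ℝ) := Nat.cast_nonneg _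
      push_cast at h4 h1
      nlinarith

/-- the part of `n` composed of elements of `Q` -/
noncomputable def part (Q : Finset ℕ) (n : ℕ) : List ℕ := n.primeFactorsList.filter (fun q => q ∈ Q)

theorem part_sub (Q : Finset ℕ) (n : ℕ) : (part Q n).Sublist n.primeFactorsList :=
  List.filter_sublist

theorem sub_dvd {n : ℕ} (hn : n ≠ 0) {l : List ℕ} (h : l.Sublist n.primeFactorsList) :
    l.prod ∣ n := by
  have h1 := h.prod_dvd_prod
  rwa [Nat.prod_primeFactorsList hn] at h1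

theorem cm_part (Q : Finset ℕ) (a : ℕ → ℝ) (n : ℕ) :
    cm (fun q => if q ∈ Q then a q else 1) n = ((part Q n).map a).prod := by
  unfold cm part
  generalize n.primeFactorsList = l
  induction l with
  | nil => simp
  | cons p l ih =>
    rw [List.map_cons, List.prod_cons, ih, List.filter_cons]
    by_cases h : p ∈ Q
    · simp [h]
    · simp [h]

theorem prod_le_of_fac (l : List ℕ) (a : ℕ → ℝ) (θ : ℝ) (ha : ∀ q ∈ l, 0 ≤ a q)
    (hθ : ∀ q ∈ l, a q ≤ (q : ℝ) ^ θ) : 0 ≤ (l.map a).prod ∧ (l.map a).prod ≤ ((l.prod : ℕ) : ℝ) ^ θ := by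
  induction l with
  | nil => simp
  | cons p l ih =>
    obtain ⟨h1, h2⟩ := ih (fun q hq => ha q (by simp [hq])) (fun q hq => hθ q (by simp [hq]))
    rw [List.map_cons, List.prod_cons, List.prod_cons, Nat.cast_mul]
    have h3 := ha p (by simp)
    have h4 := hθ p (by simp)
    refine ⟨mul_nonneg h3 h1, ?_⟩
    rw [Real.mul_rpow (Nat.cast_nonneg p) (Nat.cast_nonneg _)]
    exact mul_le_mul h4 h2 h1 (h3.trans h4)

/-- (B), pointwise -/
theorem Bc_point (b : ℕ → ℝ) (hb : ∀ q, 0 ≤ b q) (Q : Finset ℕ)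
    (θ Z1 Z2 K y : ℝ) (hθ : 0 ≤ θ) (hbθ : ∀ q ∈ Q, 1 + b q ≤ (q : ℝ) ^ θ)
    (hy : ∀ q ∈ Q, (q : ℝ) ≤ y) (hZ1 : 1 ≤ Z1) (hZ2 : Z1 * y ≤ Z2) (hZ12 : Z1 ≤ Z2) (n : ℕ) (hn : 1 ≤ n)
    (hK : (n : ℝ) ^ θ ≤ K) (D : Finset ℕ)
    (hD : ∀ d : ℕ, d ≠ 0 → (d : ℝ) ≤ Z2 → (∀ p : ℕ, p.Prime → p ∣ d → p ∈ Q) → d ∈ D) :
    cm (fun q => if q ∈ Q then 1 + b q else 1) n ≤
      ∑ d ∈ D, (d : ℝ) ^ θ * (if d ∣ n then 1 else 0) +
      K * ∑ d ∈ D.filter (fun d : ℕ => Z1 < d), (if d ∣ n then (1 : ℝ) else 0) := by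
  have hK0 : 0 ≤ K := le_trans (by positivity) hK
  have hn0 : n ≠ 0 := by omega
  have hs1 : 0 ≤ ∑ d ∈ D, (d : ℝ) ^ θ * (if d ∣ n then 1 else 0) :=
    sum_nonneg fun d _ => mul_nonneg (by positivity) (by split_ifs <;> norm_num)
  have hs2 : 0 ≤ ∑ d ∈ D.filter (fun d : ℕ => Z1 < d), (if d ∣ n then (1 : ℝ) else 0) :=
    sum_nonneg fun d _ => by split_ifs <;> norm_num
  set l := part Q n with hl
  have hlQ : ∀ q ∈ l, q ∈ Q := by
    intro q hq
    rw [hl, part, List.mem_filter] at hq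
    simpa using hq.2
  have hlp : ∀ q ∈ l, q.Prime := fun q hq =>
    Nat.prime_of_mem_primeFactorsList ((part_sub Q n).subset hq)
  have hB := prod_le_of_fac l (fun q => 1 + b q) θ (fun q _ => by have := hb q; linarith)
    (fun q hq => hbθ q (hlQ q hq))
  have hprimes : ∀ l' : List ℕ, l'.Sublist l → ∀ p : ℕ, p.Prime → p ∣ l'.prod → p ∈ Q := by
    intro l' hl' p hp hd
    rw [Prime.dvd_prod_iff hp.prime] at hd
    obtain ⟨a, ha, hpa⟩ := hd
    have hal := hl'.subset ha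
    have := (Nat.prime_dvd_prime_iff_eq hp (hlp a hal)).1 hpa
    rw [this]
    exact hlQ a hal
  have hl0 : ∀ l' : List ℕ, l'.Sublist l → l'.prod ≠ 0 := by
    intro l' hl' h0
    rw [List.prod_eq_zero_iff] at h0
    exact (hlp 0 (hl'.subset h0)).ne_zero rfl
  rw [cm_part]
  refine hB.2.trans ?_
  by_cases hc : ((l.prod : ℕ) : ℝ) ≤ Z2
  · have h1 := hD l.prod (hl0 l (List.Sublist.refl _)) hc (hprimes l (List.Sublist.refl _))
    have h2 := single_le_sum (f := fun d : ℕ => (d : ℝ) ^ θ * (if d ∣ n then (1 : ℝ) else 0))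
      (fun d _ => mul_nonneg (by positivity) (by split_ifs <;> norm_num)) h1
    rw [if_pos (show l.prod ∣ n from sub_dvd hn0 (part_sub Q n)), mul_one] at h2
    have h3 : 0 ≤ K * ∑ d ∈ D.filter (fun d : ℕ => Z1 < d), (if d ∣ n then (1 : ℝ) else 0) :=
      mul_nonneg hK0 hs2
    linarith
  · push Not at hc
    have hy1 : Z1 < ((l.prod : ℕ) : ℝ) := lt_of_le_of_lt hZ12 hc
    obtain ⟨l', h1, h2, h3⟩ := exists_sublist l Z1 y hZ1 (fun q hq => hy q (hlQ q hq)) hy1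
    have h4 := hD l'.prod (hl0 l' h1) (h3.trans hZ2) (hprimes l' h1)
    have h5 : l'.prod ∣ n := sub_dvd hn0 (h1.trans (part_sub Q n))
    have h6 := single_le_sum (f := fun d : ℕ => (if d ∣ n then (1 : ℝ) else 0))
      (s := D.filter (fun d : ℕ => Z1 < d)) (fun d _ => by split_ifs <;> norm_num)
      (mem_filter.2 ⟨h4, h2⟩)
    simp only [if_pos h5] at h6
    have h7 : ((l.prod : ℕ) : ℝ) ^ θ ≤ K := by
      refine le_trans ?_ hK
      apply Real.rpow_le_rpow (by positivity) _ hθ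
      exact_mod_cast Nat.le_of_dvd (by omega) (sub_dvd hn0 (part_sub Q n))
    have h8 : K * 1 ≤ K * ∑ d ∈ D.filter (fun d : ℕ => Z1 < d), (if d ∣ n then (1 : ℝ) else 0) :=
      mul_le_mul_of_nonneg_left h6 hK0
    linarith

theorem Bc_bound (E : Env) (hG : E.GBounds) : ∃ J : ℕ, 1 ≤ J ∧ ∀ j : ℕ, J ≤ j → ∀ i : ℕ, j ≤ i →
    ∀ k : ℕ, k < nc E.δ i → ∑ n ∈ cell E.δ i k,
      cm (fun p : ℕ => if (p : ℝ) ≤ (2 : ℝ) ^ (1 / 20 * (i : ℝ)) then 1 + 2 * (p * E.gh j p) else 1) n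
        ≤ 5 * hh E.δ i := by
  have hδ := E.hδ
  have hδt := E.hδ'
  have hτ := E.hτ
  have hτ' := E.hτ'
  obtain ⟨J0, hJ0, hJ⟩ := hG
  obtain ⟨J1, hJ1⟩ := large (E.τ / 16 - 9 * E.δ) 8 0 (by linarith)
  obtain ⟨J2, hJ2⟩ := large (1 / 5 - E.δ) 2 0 (by linarith)
  refine ⟨J0 + J1 + J2 + 3, by omega, fun j hj i hij k hk => ?_⟩
  obtain ⟨-, -, g3, -, g5, -, g7, g8, -⟩ := hJ j (by omega)
  have hjR : (3 : ℝ) ≤ j := by exact_mod_cast (by omega : 3 ≤ j)
  have hh0 := hh_posR E.δ i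
  set b : ℕ → ℝ := fun q => 2 * (q * E.gh j q) with hb
  have hb0 : ∀ q, 0 ≤ b q := by
    intro q
    have := g3 q
    simp only [hb]
    positivity
  set Q : Finset ℕ := (range (2 ^ i + 1)).filter (fun q : ℕ =>
    (q : ℝ) ≤ (2 : ℝ) ^ (1 / 20 * (i : ℝ)) ∧ E.gh j q ≠ 0) with hQ
  have hQp : ∀ q ∈ Q, q.Prime := by
    intro q hq
    rw [hQ, mem_filter] at hq
    exact (g5 q hq.2.2).1.1
  have hiR : (0 : ℝ) ≤ i := by positivity
  have e1 : ∀ n ∈ cell E.δ i k,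
      cm (fun p : ℕ => if (p : ℝ) ≤ (2 : ℝ) ^ (1 / 20 * (i : ℝ)) then 1 + 2 * (p * E.gh j p) else 1) n
        = cm (fun q => if q ∈ Q then 1 + b q else 1) n := by
    intro n hn
    refine cm_congr _ _ n fun q hq hd => ?_
    by_cases h1 : (q : ℝ) ≤ (2 : ℝ) ^ (1 / 20 * (i : ℝ))
    · by_cases h2 : E.gh j q = 0
      · have h3 : q ∉ Q := by
          rw [hQ, mem_filter]
          exact fun h => h.2.2 h2
        rw [if_pos h1, if_neg h3, h2]; ring
      · have h3 : q ∈ Q := by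
          rw [hQ, mem_filter, mem_range]
          refine ⟨?_, h1, h2⟩
          have h6 : (q : ℝ) ≤ 2 ^ i := by
            refine h1.trans ?_
            rw [← Real.rpow_natCast]
            apply Real.rpow_le_rpow_of_exponent_le (by norm_num)
            linarith
          have h7 : q ≤ 2 ^ i := by exact_mod_cast h6
          omega
        rw [if_pos h1, if_pos h3]
    · have h3 : q ∉ Q := by
        rw [hQ, mem_filter]
        exact fun h => h1 h.2.1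
      rw [if_neg h1, if_neg h3]
  rw [sum_congr rfl e1]
  set Z1 : ℝ := (2 : ℝ) ^ (1 / 4 * (i : ℝ)) with hZ1
  set Z2 : ℝ := (2 : ℝ) ^ (3 / 10 * (i : ℝ)) with hZ2
  set K : ℝ := 2 * (2 : ℝ) ^ (9 * E.δ * i) with hK
  have hZ12 : Z1 ≤ Z2 := by
    apply Real.rpow_le_rpow_of_exponent_le (by norm_num)
    linarith
  set D : Finset ℕ := (Icc 1 ⌊Z2⌋₊).filter (fun d => ∀ p : ℕ, p.Prime → p ∣ d → p ∈ Q) with hD
  have hZ2pos : (0 : ℝ) < Z2 := by positivity
  have hDmem : ∀ d ∈ D, d ≠ 0 ∧ (d : ℝ) ≤ Z2 ∧ ∀ p : ℕ, p.Prime → p ∣ d → p ∈ Q := by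
    intro d hd
    rw [hD, mem_filter, mem_Icc] at hd
    refine ⟨by omega, ?_, hd.2⟩
    exact (Nat.le_floor_iff hZ2pos.le).1 hd.1.2
  have hpt : ∀ n ∈ cell E.δ i k, cm (fun q => if q ∈ Q then 1 + b q else 1) n ≤
      ∑ d ∈ D, (d : ℝ) ^ (9 * E.δ) * (if d ∣ n then 1 else 0) +
      K * ∑ d ∈ D.filter (fun d : ℕ => Z1 < d), (if d ∣ n then (1 : ℝ) else 0) := by
    intro n hn
    have hn2 := cell_sub hδ.le hk hn
    apply Bc_point b hb0 Q (9 * E.δ) Z1 Z2 K ((2 : ℝ) ^ (1 / 20 * (i : ℝ))) (by linarith)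
    · intro q hq
      rw [hQ, mem_filter] at hq
      exact (g7 q hq.2.2).2
    · intro q hq
      rw [hQ, mem_filter] at hq
      exact hq.2.1
    · exact Real.one_le_rpow (by norm_num) (by positivity)
    · rw [hZ1, hZ2, ← Real.rpow_add (by norm_num)]
      apply le_of_eq
      congr 1; ring
    · exact hZ12
    · omega
    · have hnR : (n : ℝ) ≤ (2 : ℝ) ^ ((i : ℝ) + 1) := by
        have : (n : ℝ) ≤ 2 ^ (i + 1) := by exact_mod_cast hn2.2
        rw [← Real.rpow_natCast] at this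
        push_cast at this
        exact this
      calc (n : ℝ) ^ (9 * E.δ) ≤ ((2 : ℝ) ^ ((i : ℝ) + 1)) ^ (9 * E.δ) :=
            Real.rpow_le_rpow (by positivity) hnR (by linarith)
        _ = (2 : ℝ) ^ (((i : ℝ) + 1) * (9 * E.δ)) := by rw [← Real.rpow_mul (by norm_num)]
        _ ≤ (2 : ℝ) ^ (1 + 9 * E.δ * i) := by
            apply Real.rpow_le_rpow_of_exponent_le (by norm_num)
            nlinarith
        _ = K := by rw [hK, Real.rpow_add (by norm_num), Real.rpow_one]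
    · intro d hd0 hd2 hdQ
      rw [hD, mem_filter, mem_Icc]
      exact ⟨⟨by omega, Nat.le_floor hd2⟩, hdQ⟩
  refine (sum_le_sum hpt).trans ?_
  rw [sum_add_distrib, ← mul_sum, sum_comm (s := cell E.δ i k) (t := D),
    sum_comm (s := cell E.δ i k) (t := D.filter (fun d : ℕ => Z1 < d))]
  -- counting
  have hZ2h : Z2 ≤ hh E.δ i := by
    have h1 := hJ2 i (by omega)
    rw [pow_zero, mul_one] at h1
    have h2 := lt_hh (δ := E.δ) i
    have h3 : Z2 * (2 : ℝ) ^ ((1 / 5 - E.δ) * i) = (2 : ℝ) ^ ((1 / 2 - E.δ) * i) := by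
      rw [hZ2, ← Real.rpow_add (by norm_num)]
      congr 1; ring
    have h4 : (0 : ℝ) < Z2 := by positivity
    nlinarith
  have hcount : ∀ d ∈ D, ∑ n ∈ cell E.δ i k, (if d ∣ n then (1 : ℝ) else 0) ≤
        2 * hh E.δ i / (d : ℝ) := by
    intro d hd
    obtain ⟨hd0, hle, -⟩ := hDmem d hd
    have hpos : 0 < d := Nat.pos_of_ne_zero hd0
    have hposR : (0 : ℝ) < (d : ℝ) := by exact_mod_cast hpos
    rw [sum_boole]
    have h1 := card_mult (2 ^ i + k * hh E.δ i) (hh E.δ i) d hpos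
    have h2 : cell E.δ i k = Ioc (2 ^ i + k * hh E.δ i) (2 ^ i + k * hh E.δ i + hh E.δ i) := by
      unfold cell
      congr 1; ring
    rw [h2]
    refine h1.trans ?_
    have h3 : (1 : ℝ) ≤ hh E.δ i / (d : ℝ) := by
      rw [le_div_iff₀ hposR, one_mul]
      exact hle.trans hZ2h
    have h4 : 2 * (hh E.δ i : ℝ) / (d : ℝ) =
        hh E.δ i / (d : ℝ) + hh E.δ i / (d : ℝ) := by ring
    rw [h4]
    linarith
  -- the Euler product
  have g8Q := g8 Q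
  have hqpos : ∀ q ∈ Q, (1 : ℝ) ≤ q := fun q hq => by exact_mod_cast (hQp q hq).one_lt.le
  have h6 : ∑ q ∈ Q, (q : ℝ) ^ (-1 + E.τ / 4) ≤ 1 / j := by
    refine le_trans (sum_le_sum ?_) g8Q
    intro q hq
    rw [hQ, mem_filter] at hq
    have h7 := (g5 q hq.2.2).2.2
    have h8 : 0 ≤ (q : ℝ) ^ (-1 + E.τ / 4) := by positivity
    nlinarith
  have hj3 : (1 : ℝ) / j ≤ 1 / 3 := one_div_le_one_div_of_le (by norm_num) hjR
  have hEul : ∑ d ∈ D, (d : ℝ) ^ (-1 + E.τ / 4) ≤ 2 := by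
    have h1 := euler_le Q hQp (fun q => (q : ℝ) ^ (-1 + E.τ / 4)) (fun q _ => by positivity)
      (fun q hq => by
        have h2 : (q : ℝ) ^ (-1 + E.τ / 4) ≤ ∑ q ∈ Q, (q : ℝ) ^ (-1 + E.τ / 4) :=
          single_le_sum (f := fun q : ℕ => (q : ℝ) ^ (-1 + E.τ / 4))
            (fun q _ => by positivity) hq
        linarith) D (fun d hd => ⟨(hDmem d hd).1, (hDmem d hd).2.2⟩)
    have h2 : ∑ d ∈ D, cm (fun q : ℕ => (q : ℝ) ^ (-1 + E.τ / 4)) d =
        ∑ d ∈ D, (d : ℝ) ^ (-1 + E.τ / 4) :=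
      sum_congr rfl fun d hd => cm_rpow _ (hDmem d hd).1
    rw [h2] at h1
    refine h1.trans ?_
    calc Real.exp (2 * ∑ q ∈ Q, (q : ℝ) ^ (-1 + E.τ / 4)) ≤ Real.exp (Real.log 2) := by
          apply Real.exp_le_exp.2
          have := Real.log_two_gt_d9
          linarith
      _ = 2 := Real.exp_log (by norm_num)
  -- first sum
  have hS1 : ∑ d ∈ D, ∑ n ∈ cell E.δ i k,
      (d : ℝ) ^ (9 * E.δ) * (if d ∣ n then (1 : ℝ) else 0) ≤ 4 * hh E.δ i := by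
    have h1 : ∀ d ∈ D, ∑ n ∈ cell E.δ i k,
        (d : ℝ) ^ (9 * E.δ) * (if d ∣ n then (1 : ℝ) else 0) ≤
        2 * hh E.δ i * (d : ℝ) ^ (-1 + E.τ / 4) := by
      intro d hd
      rw [← mul_sum]
      have h2 := hcount d hd
      have h3 : (0 : ℝ) ≤ (d : ℝ) ^ (9 * E.δ) := by positivity
      refine (mul_le_mul_of_nonneg_left h2 h3).trans ?_
      have hd1 : (1 : ℝ) ≤ d := by exact_mod_cast Nat.pos_of_ne_zero (hDmem d hd).1
      have h4 : (d : ℝ) ^ (9 * E.δ) * (2 * hh E.δ i / d) = 2 * hh E.δ i * (d : ℝ) ^ (-1 + 9 * E.δ) := by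
        rw [Real.rpow_add (by linarith), Real.rpow_neg_one]
        ring
      rw [h4]
      apply mul_le_mul_of_nonneg_left _ (by positivity)
      apply Real.rpow_le_rpow_of_exponent_le hd1
      linarith
    refine (sum_le_sum h1).trans ?_
    rw [← mul_sum]
    nlinarith
  -- second sum
  have hS2 : K * ∑ d ∈ D.filter (fun d : ℕ => Z1 < d), ∑ n ∈ cell E.δ i k,
      (if d ∣ n then (1 : ℝ) else 0) ≤ hh E.δ i := by
    have h1 : ∀ d ∈ D.filter (fun d : ℕ => Z1 < d), ∑ n ∈ cell E.δ i k,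
        (if d ∣ n then (1 : ℝ) else 0) ≤
        2 * hh E.δ i * (2 : ℝ) ^ (-(E.τ / 16) * (i : ℝ)) * (d : ℝ) ^ (-1 + E.τ / 4) := by
      intro d hd
      rw [mem_filter] at hd
      obtain ⟨hs1, hs2⟩ := hd
      refine (hcount d hs1).trans ?_
      have hZpos : (0 : ℝ) < Z1 := by positivity
      have hdpos : (0 : ℝ) < d := hZpos.trans hs2
      have h2 : (d : ℝ) ^ (-1 + E.τ / 4) = (d : ℝ)⁻¹ * (d : ℝ) ^ (E.τ / 4) := by
        rw [Real.rpow_add hdpos, Real.rpow_neg_one]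
      have h3 : (2 : ℝ) ^ (E.τ / 16 * (i : ℝ)) ≤ (d : ℝ) ^ (E.τ / 4) := by
        have h4 : (2 : ℝ) ^ (E.τ / 16 * (i : ℝ)) = Z1 ^ (E.τ / 4) := by
          rw [hZ1, ← Real.rpow_mul (by norm_num)]
          congr 1; ring
        rw [h4]
        exact Real.rpow_le_rpow hZpos.le hs2.le (by linarith)
      have h5 : (2 : ℝ) ^ (-(E.τ / 16) * (i : ℝ)) * (2 : ℝ) ^ (E.τ / 16 * (i : ℝ)) = 1 := by
        rw [← Real.rpow_add (by norm_num)]
        rw [show -(E.τ / 16) * (i : ℝ) + E.τ / 16 * (i : ℝ) = 0 by ring, Real.rpow_zero]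
      rw [h2]
      have h6 : 2 * (hh E.δ i : ℝ) / d = 2 * hh E.δ i * (d : ℝ)⁻¹ *
          ((2 : ℝ) ^ (-(E.τ / 16) * (i : ℝ)) * (2 : ℝ) ^ (E.τ / 16 * (i : ℝ))) := by
        rw [h5]; ring
      rw [h6]
      have h7 : 2 * (hh E.δ i : ℝ) * (d : ℝ)⁻¹ *
          ((2 : ℝ) ^ (-(E.τ / 16) * (i : ℝ)) * (2 : ℝ) ^ (E.τ / 16 * (i : ℝ))) ≤
          2 * (hh E.δ i : ℝ) * (d : ℝ)⁻¹ *
          ((2 : ℝ) ^ (-(E.τ / 16) * (i : ℝ)) * (d : ℝ) ^ (E.τ / 4)) := by
        apply mul_le_mul_of_nonneg_left _ (by positivity)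
        exact mul_le_mul_of_nonneg_left h3 (by positivity)
      refine h7.trans (le_of_eq ?_)
      ring
    have h2 : ∑ d ∈ D.filter (fun d : ℕ => Z1 < d), ∑ n ∈ cell E.δ i k,
        (if d ∣ n then (1 : ℝ) else 0) ≤
        2 * hh E.δ i * (2 : ℝ) ^ (-(E.τ / 16) * (i : ℝ)) * 2 := by
      refine (sum_le_sum h1).trans ?_
      rw [← mul_sum]
      apply mul_le_mul_of_nonneg_left _ (by positivity)
      refine le_trans ?_ hEul
      apply sum_le_sum_of_subset_of_nonneg (filter_subset _ _)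
      intro d _ _
      positivity
    have hbig := hJ1 i (by omega)
    rw [pow_zero, mul_one] at hbig
    have h3 : (2 : ℝ) ^ (9 * E.δ * i) * (2 : ℝ) ^ ((E.τ / 16 - 9 * E.δ) * i) *
        (2 : ℝ) ^ (-(E.τ / 16) * (i : ℝ)) = 1 := by
      rw [← Real.rpow_add (by norm_num), ← Real.rpow_add (by norm_num)]
      rw [show 9 * E.δ * i + (E.τ / 16 - 9 * E.δ) * i + -(E.τ / 16) * (i : ℝ) = 0 by ring,
        Real.rpow_zero]
    have hKpos : 0 ≤ K := by positivity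
    refine (mul_le_mul_of_nonneg_left h2 hKpos).trans ?_
    rw [hK]
    have h4 : 2 * (2 : ℝ) ^ (9 * E.δ * i) * (2 * hh E.δ i * (2 : ℝ) ^ (-(E.τ / 16) * (i : ℝ)) * 2)
        = hh E.δ i * ((2 : ℝ) ^ (9 * E.δ * i) * 8 * (2 : ℝ) ^ (-(E.τ / 16) * (i : ℝ))) := by ring
    rw [h4]
    have h5 : (2 : ℝ) ^ (9 * E.δ * i) * 8 * (2 : ℝ) ^ (-(E.τ / 16) * (i : ℝ)) ≤ 1 := by
      rw [← h3]
      apply mul_le_mul_of_nonneg_right _ (by positivity)
      exact mul_le_mul_of_nonneg_left hbig (by positivity)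
    nlinarith
  linarith

/-- the contribution of the small primes -/
theorem spc (E : Env) (hG : E.GBounds) : SPartc E := by
  obtain ⟨JA, -, hA⟩ := Ac_bound E hG
  obtain ⟨JB, -, hB⟩ := Bc_bound E hG
  obtain ⟨J0, hJ0, hJ⟩ := hG
  refine ⟨JA + JB + J0 + 3, fun j hj i hij k hk => ?_⟩
  have hA' := hA j (by omega) i hij
  have hB' := hB j (by omega) i hij k hk
  have hδ := E.hδ
  have hiR : (3 : ℝ) ≤ i := by exact_mod_cast (by omega : 3 ≤ i)
  have hgu := gu_nonneg E j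
  have hgh := gh_nonneg E j
  set a : ℝ := (2 : ℝ) ^ (E.δ / 2 * i) / (i : ℝ) ^ 50 with ha
  have hapos : 0 < a := by positivity
  set A : ℕ → ℝ := fun p : ℕ => if (p : ℝ) ≤ (2 : ℝ) ^ (3 / 5 * (i : ℝ)) then 1 + 2 * (p * E.gu j p) else 1
    with hAd
  set B : ℕ → ℝ := fun p : ℕ => if (p : ℝ) ≤ (2 : ℝ) ^ (1 / 20 * (i : ℝ)) then 1 + 2 * (p * E.gh j p) else 1
    with hBd
  have hB0 : ∀ p, 0 ≤ B p := by
    intro p
    simp only [hBd]
    have := hgh p
    split_ifs <;> positivity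
  have h1 : ∀ n ∈ cell E.δ i k,
      (1 / (n : ℝ)) * cm (fun p => 1 + 2 * (p * E.gs j i p)) n ≤
        (1 / 2 ^ i * a) * cm B n := by
    intro n hn
    have hn2 := cell_sub hδ.le hk hn
    have hnR : (2 : ℝ) ^ i ≤ n := by exact_mod_cast hn2.1.le
    have h2 : cm (fun p => 1 + 2 * (p * E.gs j i p)) n ≤ cm A n * cm B n := by
      rw [← cm_mul_fun]
      apply cm_le_cm
      · intro p _ _
        unfold Env.gs
        have h3 := hgu p
        have h4 := hgh p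
        split_ifs <;> positivity
      · intro p _ _
        simp only [hAd, hBd]
        unfold Env.gs
        have h3 : 0 ≤ (p : ℝ) * E.gu j p := mul_nonneg (Nat.cast_nonneg p) (hgu p)
        have h4 : 0 ≤ (p : ℝ) * E.gh j p := mul_nonneg (Nat.cast_nonneg p) (hgh p)
        split_ifs
        · nlinarith [mul_nonneg h3 h4]
        · nlinarith
        · nlinarith
        · nlinarith
    have h5 := hA' n (by omega) hn2.2
    have hBn := cm_nonneg B hB0 n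
    have h6 : cm (fun p => 1 + 2 * (p * E.gs j i p)) n ≤ a * cm B n :=
      h2.trans (mul_le_mul_of_nonneg_right h5 hBn)
    have h7 : 1 / (n : ℝ) ≤ 1 / 2 ^ i := one_div_le_one_div_of_le (by positivity) hnR
    calc (1 / (n : ℝ)) * cm (fun p => 1 + 2 * (p * E.gs j i p)) n ≤
        (1 / (n : ℝ)) * (a * cm B n) := mul_le_mul_of_nonneg_left h6 (by positivity)
      _ ≤ (1 / 2 ^ i) * (a * cm B n) :=
          mul_le_mul_of_nonneg_right h7 (mul_nonneg hapos.le hBn)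
      _ = _ := by ring
  refine (sum_le_sum h1).trans ?_
  rw [← mul_sum]
  have h3 : (1 / 2 ^ i * a) * ∑ n ∈ cell E.δ i k, cm B n ≤ (1 / 2 ^ i * a) * (5 * hh E.δ i) :=
    mul_le_mul_of_nonneg_left hB' (by positivity)
  refine h3.trans ?_
  have h4 := hh_le (δ_half E) i
  have h5 : (1 / 2 ^ i * a) * (5 * hh E.δ i) ≤
      (1 / 2 ^ i * a) * (5 * (2 : ℝ) ^ ((1 / 2 - E.δ) * i)) := by
    apply mul_le_mul_of_nonneg_left _ (by positivity)
    linarith
  refine h5.trans ?_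
  have h6 : (1 / 2 ^ i * a) * (5 * (2 : ℝ) ^ ((1 / 2 - E.δ) * i)) = 5 / (i : ℝ) ^ 10 * E.w i := by
    unfold Env.w
    have e1 : (2 : ℝ) ^ (-(1 / 2 + E.δ / 2) * (i : ℝ)) * (2 : ℝ) ^ i =
      (2 : ℝ) ^ ((1 / 2 - E.δ) * i) * (2 : ℝ) ^ (E.δ / 2 * i) := exp_id1 E i
    rw [ha]
    have e2 : (1 / 2 ^ i * ((2 : ℝ) ^ (E.δ / 2 * i) / (i : ℝ) ^ 50)) *
        (5 * (2 : ℝ) ^ ((1 / 2 - E.δ) * i)) = 5 / (i : ℝ) ^ 50 *
        (((2 : ℝ) ^ ((1 / 2 - E.δ) * i) * (2 : ℝ) ^ (E.δ / 2 * i)) / 2 ^ i) := by ring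
    rw [e2, ← e1]
    field_simp
  rw [h6]
  have h7 : 5 / (i : ℝ) ^ 10 ≤ 1 / 6400 := by
    rw [div_le_div_iff₀ (by positivity) (by norm_num)]
    have : (3 : ℝ) ^ 10 ≤ (i : ℝ) ^ 10 := pow_le_pow_left₀ (by norm_num) hiR 10
    linarith
  have h8 := w_nonneg E i
  have h9 := mul_le_mul_of_nonneg_right h7 h8
  linarith

end Pool.Agent.Q27.CM
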