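import Pool.Agent.Q27.CM.Fin
import Pool.Agent.Q27.CM.HX
import Pool.Agent.Q27.CM.H1
import Pool.Agent.Q27.CM.HB
import Pool.Agent.Q27.CM.HA
import Pool.Agent.Q27.CM.UP
import Pool.Agent.Q27.CM.SB
import Pool.Agent.W76.MO.Final

set_option autoImplicit false

/-!
# Under RH there is a completely multiplicative function of sum zero with small partial sums
-/

namespace Pool.Agent.Q27.CM

open Finset
open scoped Classical
open Pool.Agent.W76.MO

theorem hosts : Hosts := Pool.Agent.W544.MO.main Pool.Agent.W761.MO.btr midRange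

theorem fewBad : FewBad :=
  Pool.Agent.W475.MO.fb (Pool.Agent.W726.MOBC.main Pool.Agent.W613.MO.za Pool.Agent.W475.MO.gi)
    (Pool.Agent.W815.CL.cellLow Pool.Agent.W761.MO.btr)

/-- all inputs for an environment -/
theorem conclb_of_env (E : Env) : ConclB (9 * E.δ) (E.δ / 2) := by
  have hHC := Pool.Agent.W501.MO.hc E
  have hGB := Pool.Agent.W683.MO.gb E hHC
  have hES := Pool.Agent.W280.MO.T_ES_proof E hGB
  have hUP := Pool.Agent.W596.MO.upart E hGB hES
  have hSP := Pool.Agent.W683.MO.sp E hGB
  have hPB := Pool.Agent.W1.MO.pb E.τ E.δ E.hτ E.hτ' E.hδ E.hδ'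
  have hHP := Pool.Agent.W356.MO.HX E hGB (Pool.Agent.W640.MO.h1 E hHC hGB)
    (Pool.Agent.W326.MO.task_HA E hHC hGB hES) (Pool.Agent.W356.MO.HB E hHC hGB hPB)
  have hESc := esc E hGB
  have hUPc := upc E hGB hESc
  have hSPc := spc E hGB
  have hHPc := HX.HXc E hGB (H1.h1 E hGB) (HAc E hHC hGB hESc) (HX.HBc E hHC hGB hPB)
  exact env_conclb E hHC hGB hUP hHP hSP (nsc E hGB hUPc hHPc hSPc)

theorem conclc_of_env (E : Env) : ConclC := by
  obtain ⟨f, h1, h2, -, C, hC, hb⟩ := conclb_of_env E
  have := E.hδ
  exact ⟨f, h1, h2, E.δ / 2, C, by positivity, hC, hb⟩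

theorem exists_env (hRH : RiemannHypothesis) : ∃ _ : Env, True := by
  obtain ⟨τ₀, γ₀, c, δ₀, hτ₀, hγ₀, hc, hδ₀, hhost⟩ := hosts
  set τ : ℝ := min (min τ₀ γ₀) (1 / 100) with hτd
  have hτ : 0 < τ := lt_min (lt_min hτ₀ hγ₀) (by norm_num)
  have hτ1 : τ ≤ 1 / 100 := min_le_right _ _
  set δ : ℝ := min δ₀ (τ / 1000) with hδd
  have hδ : 0 < δ := lt_min hδ₀ (by positivity)
  have hδ1 : δ ≤ τ / 1000 := min_le_right _ _
  obtain ⟨i₀, hi₀, hhost⟩ := hhost δ hδ (min_le_left _ _)
  obtain ⟨isU, CU, cU, i₁, hCU, hcU, hi₁, hup, huu, hub⟩ :=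
    Pool.Agent.W377.MOUS.us Pool.Agent.W761.MO.btr fewBad hRH τ δ hτ hτ1 hδ hδ1
  obtain ⟨CB, hCB, i₂, hi₂, hbtr⟩ := Pool.Agent.W761.MO.btr τ (τ / 4) hτ (by positivity)
  exact ⟨{ τ := τ, δ := δ, CU := CU, cU := cU, cH := c, CB := max CB 1, isU := isU
           i₁ := i₀ + i₁ + i₂
           hτ := hτ, hτ' := hτ1, hδ := hδ, hδ' := hδ1, hCU := hCU, hcU := hcU, hcH := hc
           hCB := le_max_right _ _
           hi₁ := by omega
           u_prime := hup
           u_up := fun i hi => huu i (by omega)
           u_bad := fun i hi => hub i (by omega)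
           host := by
             intro i hi k hk
             have hmul := nc_mul δ hδ i
             have hlt : (k + 1) * hh δ i ≤ nc δ i * hh δ i := Nat.mul_le_mul_right _ hk
             have h1 := hhost i (by omega) (2 ^ i + k * hh δ i) (by omega) (by
               rw [pow_succ]
               have : k * hh δ i ≤ (k + 1) * hh δ i := Nat.mul_le_mul_right _ (Nat.le_succ k)
               omega)
             refine h1.trans ?_
             have hi0 : (0 : ℝ) ≤ i := Nat.cast_nonneg i
             have hsub : (Ioc (2 ^ i + k * hh δ i) (2 ^ i + k * hh δ i + hh δ i)).filter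
                 (HostNum τ₀ γ₀ i) ⊆ (cell δ i k).filter (HostNum τ τ i) := by
               intro n hn
               rw [mem_filter, mem_Ioc] at hn
               rw [mem_filter]
               refine ⟨?_, ?_⟩
               · unfold cell
                 rw [mem_Ioc]
                 have : (k + 1) * hh δ i = k * hh δ i + hh δ i := by ring
                 omega
               · obtain ⟨m, q, h1, h2, h3, h4, h5, h6⟩ := hn.2
                 refine ⟨m, q, h1, h2, ?_, h4, h5, ?_⟩
                 · refine le_trans (Real.rpow_le_rpow_of_exponent_le (by norm_num) ?_) h3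
                   have : τ ≤ τ₀ := (min_le_left _ _).trans (min_le_left _ _)
                   apply mul_le_mul_of_nonneg_right _ hi0
                   linarith
                 · intro p hp hpm
                   refine le_trans (Real.rpow_le_rpow_of_exponent_le (by norm_num) ?_) (h6 p hp hpm)
                   have : τ ≤ γ₀ := (min_le_left _ _).trans (min_le_right _ _)
                   exact mul_le_mul_of_nonneg_right this hi0
             exact_mod_cast Finset.card_le_card hsub
           btr := by
             intro i hi a L hL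
             refine (hbtr i (by omega) a L hL).trans ?_
             have hi0 : (0 : ℝ) < i := by
               have : 0 < i := by omega
               exact_mod_cast this
             gcongr
             exact le_max_left _ _ }, trivial⟩

/-- the main theorem -/
theorem main (hRH : RiemannHypothesis) : ConclC := by
  obtain ⟨E, -⟩ := exists_env hRH
  exact conclc_of_env E

end Pool.Agent.Q27.CM
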