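import Pool.Agent.Q27.CM.Defs
import Pool.Agent.W76.MO.Asm1

set_option autoImplicit false

/-!
# The contribution of the numbers which are not squarefree
-/

namespace Pool.Agent.Q27.CM

open Finset Filter Topology
open scoped Classical
open Pool.Agent.W76.MO

/-- the numbers of a cell which are not squarefree contribute little -/
def NS (E : Env) : Prop := ∃ R₀ : ℕ, ∀ R : ℕ, R₀ ≤ R → ∃ J : ℕ, ∀ j : ℕ, J ≤ j → ∀ i : ℕ, j ≤ i →
  ∀ k : ℕ, k < nc E.δ i → ∑ n ∈ ns E R i k, E2c E j n / (n : ℝ) ≤ E.w i / 16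

theorem cell_bd (δ : ℝ) (i k n : ℕ) (hk : k < nc δ i) (hn : n ∈ cell δ i k) :
    2 ^ i < n ∧ n ≤ 2 ^ (i + 1) := by
  unfold cell at hn
  rw [mem_Ioc] at hn
  have h1 : (k + 1) * hh δ i ≤ 2 ^ i := by
    calc (k + 1) * hh δ i ≤ nc δ i * hh δ i := Nat.mul_le_mul_right _ hk
      _ ≤ 2 ^ i := Nat.div_mul_le_self _ _
  have h2 : 2 ^ (i + 1) = 2 * 2 ^ i := by ring
  have h3 : 0 ≤ k * hh δ i := Nat.zero_le _
  constructor <;> omega

theorem vp_le (c : ℝ) (i K n p : ℕ) (hn : n ≠ 0) (hn2 : n ≤ 2 ^ (i + 1)) (hp : p.Prime)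
    (hpc : (2 : ℝ) ^ (c * i) < p) (hK : (i : ℝ) + 1 ≤ (K + 1) * (c * i)) :
    n.factorization p ≤ K := by
  by_contra hcon
  push Not at hcon
  have h1 : p ^ (K + 1) ∣ n := (Nat.Prime.pow_dvd_iff_le_factorization hp hn).2 hcon
  have h2 := (Nat.le_of_dvd (Nat.pos_of_ne_zero hn) h1).trans hn2
  have h3 : (p : ℝ) ^ (K + 1) ≤ (2 : ℝ) ^ (i + 1) := by exact_mod_cast h2
  have h4 : ((2 : ℝ) ^ (c * i)) ^ (K + 1) < (p : ℝ) ^ (K + 1) :=
    pow_lt_pow_left₀ hpc (by positivity) (by omega)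
  have h5 : (2 : ℝ) ^ (i + 1) ≤ ((2 : ℝ) ^ (c * i)) ^ (K + 1) := by
    rw [← Real.rpow_natCast, ← Real.rpow_natCast, ← Real.rpow_mul (by norm_num)]
    apply Real.rpow_le_rpow_of_exponent_le (by norm_num)
    push_cast
    linarith
  linarith

theorem nsc (E : Env) (hG : E.GBounds) (hU : UPartc E) (hH : HPartc E) (hS : SPartc E) : NS E := by
  obtain ⟨J0, hJ0, hG⟩ := hG
  obtain ⟨R1, hU⟩ := hU
  obtain ⟨R2, hH⟩ := hH
  obtain ⟨J3, hS⟩ := hS
  refine ⟨max R1 R2, fun R hR => ?_⟩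
  obtain ⟨J1, hU⟩ := hU R ((le_max_left _ _).trans hR)
  obtain ⟨J2, hH⟩ := hH R ((le_max_right _ _).trans hR)
  refine ⟨J0 + J1 + J2 + J3 + 20, fun j hj i hi k hk => ?_⟩
  obtain ⟨_, hu0, hh0, _⟩ := hG j (by omega)
  have a1 := hU j (by omega) i hi k hk
  have a2 := hH j (by omega) i hi k hk
  have a3 := hS j (by omega) i hi k hk
  have hi20 : (20 : ℝ) ≤ i := by exact_mod_cast (by omega : 20 ≤ i)
  have hw : 0 ≤ E.w i := by unfold Env.w; positivity
  have hgl0 : ∀ p, 0 ≤ E.gl j i p := fun p => by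
    unfold Env.gl
    have := hu0 p
    have := hh0 p
    split_ifs <;> linarith
  have hgs0 : ∀ p, 0 ≤ E.gs j i p := fun p => by
    unfold Env.gs
    have := hu0 p
    have := hh0 p
    split_ifs <;> linarith
  have hpt : ∀ n ∈ ns E R i k, E2c E j n / (n : ℝ) ≤
      (1 / (n : ℝ)) * cm (fun p => 1 + 2 * (p * E.gs j i p)) n +
      (2 * ∑ p ∈ n.primeFactors.filter (fun p : ℕ => (2 : ℝ) ^ (3 / 5 * (i : ℝ)) < p),
        E.gu j p * (E2c E j (n / p) / ((n / p : ℕ) : ℝ)) +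
       40 * ∑ q ∈ n.primeFactors.filter (fun q : ℕ => (2 : ℝ) ^ (1 / 20 * (i : ℝ)) < q),
        E.gh j q * (E2c E j (n / q) / ((n / q : ℕ) : ℝ))) := by
    intro n hn
    unfold ns at hn
    rw [mem_filter] at hn
    obtain ⟨hlo, hhi⟩ := cell_bd E.δ i k n hk hn.1
    have hn0 : n ≠ 0 := (lt_of_le_of_lt (Nat.zero_le _) hlo).ne'
    have hnR : (0 : ℝ) < n := by exact_mod_cast Nat.pos_of_ne_zero hn0
    have hexp := cm_expand (fun p => (p : ℝ) * E.gl j i p) (fun p => (p : ℝ) * E.gs j i p)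
      (fun p => mul_nonneg (Nat.cast_nonneg p) (hgl0 p))
      (fun p => mul_nonneg (Nat.cast_nonneg p) (hgs0 p)) hn0
    have efun : (fun p : ℕ => 1 + 2 * ((p : ℝ) * E.gl j i p + (p : ℝ) * E.gs j i p)) =
        fun p : ℕ => 1 + 2 * ((p : ℝ) * E.g j p) := by
      funext p
      rw [← E.gl_add_gs j i p]; ring
    simp only [efun] at hexp
    have hE : ∀ m, cm (fun p : ℕ => 1 + 2 * ((p : ℝ) * E.g j p)) m = E2c E j m := fun m => rfl
    simp only [hE] at hexp
    have h1 : E2c E j n / (n : ℝ) ≤ (1 / (n : ℝ)) * cm (fun p => 1 + 2 * (p * E.gs j i p)) n +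
        (1 / (n : ℝ)) * ∑ p ∈ n.primeFactors, (n.factorization p : ℝ) *
          (2 * ((p : ℝ) * E.gl j i p) * E2c E j (n / p)) := by
      rw [← mul_add, div_eq_mul_one_div, mul_comm]
      exact mul_le_mul_of_nonneg_left hexp (by positivity)
    refine h1.trans (add_le_add le_rfl ?_)
    rw [mul_sum, sum_filter, sum_filter, mul_sum, mul_sum, ← sum_add_distrib]
    refine sum_le_sum fun p hp => ?_
    have hpp := Nat.prime_of_mem_primeFactors hp
    have hpd := Nat.dvd_of_mem_primeFactors hp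
    have hp0 : (0 : ℝ) < p := by exact_mod_cast hpp.pos
    have hdiv : ((n / p : ℕ) : ℝ) = (n : ℝ) / p := Nat.cast_div hpd hp0.ne'
    have hX : 0 ≤ E2c E j (n / p) / ((n / p : ℕ) : ℝ) :=
      div_nonneg (E2c_nonneg hu0 hh0 _) (Nat.cast_nonneg _)
    set X := E2c E j (n / p) / ((n / p : ℕ) : ℝ) with hXd
    have e1 : (1 / (n : ℝ)) * ((n.factorization p : ℝ) *
          (2 * ((p : ℝ) * E.gl j i p) * E2c E j (n / p))) =
        2 * ((n.factorization p : ℝ) * E.gl j i p) * X := by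
      rw [hXd, hdiv]
      field_simp
    rw [e1]
    have h2 : (n.factorization p : ℝ) * E.gl j i p ≤
        (if (2 : ℝ) ^ (3 / 5 * (i : ℝ)) < p then E.gu j p else 0) +
        20 * (if (2 : ℝ) ^ (1 / 20 * (i : ℝ)) < p then E.gh j p else 0) := by
      unfold Env.gl
      rw [mul_add]
      refine add_le_add ?_ ?_
      · split_ifs with h
        · have h3 := vp_le (3 / 5) i 1 n p hn0 hhi hpp h (by push_cast; linarith)
          have h4 : (n.factorization p : ℝ) ≤ 1 := by exact_mod_cast h3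
          have := hu0 p
          nlinarith
        · simp
      · split_ifs with h
        · have h3 := vp_le (1 / 20) i 20 n p hn0 hhi hpp h (by push_cast; linarith)
          have h4 : (n.factorization p : ℝ) ≤ 20 := by exact_mod_cast h3
          have := hh0 p
          nlinarith
        · simp
    have h5 : 2 * ((n.factorization p : ℝ) * E.gl j i p) * X ≤
        2 * ((if (2 : ℝ) ^ (3 / 5 * (i : ℝ)) < p then E.gu j p else 0) +
        20 * (if (2 : ℝ) ^ (1 / 20 * (i : ℝ)) < p then E.gh j p else 0)) * X :=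
      mul_le_mul_of_nonneg_right (by linarith) hX
    refine h5.trans (le_of_eq ?_)
    split_ifs <;> ring
  refine (sum_le_sum hpt).trans ?_
  rw [sum_add_distrib, sum_add_distrib, ← mul_sum, ← mul_sum]
  have a4 : ∑ n ∈ ns E R i k, (1 / (n : ℝ)) * cm (fun p => 1 + 2 * (p * E.gs j i p)) n ≤
      E.w i / 6400 := by
    refine le_trans (sum_le_sum_of_subset_of_nonneg ?_ ?_) a3
    · unfold ns
      exact filter_subset _ _
    · intro n _ _
      refine mul_nonneg (by positivity) (cm_nonneg _ (fun p => ?_) n)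
      have := mul_nonneg (Nat.cast_nonneg (α := ℝ) p) (hgs0 p)
      linarith
  linarith

end Pool.Agent.Q27.CM
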