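import Pool.Agent.Q27.CM.Defs
import Pool.Agent.W683.MO.SP

set_option autoImplicit false

/-!
# The small control primes of the first kind, with multiplicities
-/

namespace Pool.Agent.Q27.CM

open Finset Filter Topology
open scoped Classical
open Pool.Agent.W76.MO Pool.Agent.W683.MO

theorem cm_eq_fin (a : ℕ → ℝ) (n : ℕ) :
    cm a n = ∏ k : Fin n.primeFactorsList.length, a (n.primeFactorsList[k]) := by
  unfold cm
  exact (Fin.prod_univ_fun_getElem n.primeFactorsList a).symm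

theorem prod_fin_eq {n : ℕ} (hn : n ≠ 0) :
    ∏ k : Fin n.primeFactorsList.length, n.primeFactorsList[k] = n := by
  have h := Fin.prod_univ_fun_getElem n.primeFactorsList (fun p : ℕ => p)
  rw [List.map_id'] at h
  rw [Nat.prod_primeFactorsList hn] at h
  exact h

theorem Ac_bound (E : Env) (hG : E.GBounds) : ∃ J : ℕ, 1 ≤ J ∧ ∀ j : ℕ, J ≤ j → ∀ i : ℕ, j ≤ i →
    ∀ n : ℕ, 1 ≤ n → n ≤ 2 ^ (i + 1) →
      cm (fun p : ℕ => if (p : ℝ) ≤ (2 : ℝ) ^ (3 / 5 * (i : ℝ)) then 1 + 2 * (p * E.gu j p) else 1) n ≤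
        (2 : ℝ) ^ (E.δ / 2 * i) / (i : ℝ) ^ 50 := by
  have hδ := E.hδ
  have hδ1 : E.δ ≤ 1 := by have := E.hδ'; have := E.hτ'; linarith
  obtain ⟨J0, hJ0, hJ⟩ := hG
  obtain ⟨J1, hJ1⟩ := large (E.δ / 50) 1 50 (by linarith)
  refine ⟨J0 + J1 + 1003, by omega, fun j hj i hij n hn1 hn => ?_⟩
  obtain ⟨-, -, -, g4, -, g6, -, -, -⟩ := hJ j (by omega)
  set P : Fin n.primeFactorsList.length → ℕ := fun k => n.primeFactorsList[k] with hPd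
  have hPp : ∀ k, (P k).Prime := fun k =>
    Nat.prime_of_mem_primeFactorsList (List.getElem_mem _)
  set F : Finset (Fin n.primeFactorsList.length) := univ.filter
    (fun k => ((P k : ℕ) : ℝ) ≤ (2 : ℝ) ^ (3 / 5 * (i : ℝ)) ∧ E.U j (P k)) with hF
  have e1 : cm (fun p : ℕ => if (p : ℝ) ≤ (2 : ℝ) ^ (3 / 5 * (i : ℝ)) then 1 + 2 * (p * E.gu j p) else 1) n
      = ∏ k ∈ F, (1 + 2 * ((P k : ℝ) * E.gu j (P k))) := by
    rw [cm_eq_fin, hF, prod_filter]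
    refine prod_congr rfl fun k _ => ?_
    show (if ((P k : ℕ) : ℝ) ≤ (2 : ℝ) ^ (3 / 5 * (i : ℝ)) then 1 + 2 * ((P k : ℝ) * E.gu j (P k)) else 1) = _
    by_cases h1 : ((P k : ℕ) : ℝ) ≤ (2 : ℝ) ^ (3 / 5 * (i : ℝ))
    · by_cases h2 : E.U j (P k)
      · rw [if_pos h1, if_pos ⟨h1, h2⟩]
      · rw [if_pos h1, if_neg (fun h => h2 h.2)]
        have h0 : E.gu j (P k) = 0 := by
          by_contra h0
          exact h2 (g4 _ h0)
        rw [h0]; ring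
    · rw [if_neg h1, if_neg (fun h => h1 h.1)]
  rw [e1]
  have hFU : ∀ k ∈ F, E.U j (P k) := fun p hp => (mem_filter.1 hp).2.2
  have hFp : ∀ p ∈ F, ((P p : ℕ) : ℝ) ≤ (2 : ℝ) ^ (3 / 5 * (i : ℝ)) :=
    fun p hp => (mem_filter.1 hp).2.1
  have hsc : ∀ p ∈ F, 2 ^ Env.sc (P p) < P p := by
    intro p hp
    exact (sc_spec (hPp p).two_le).1
  have ha2 : ∀ p ∈ F, 2 ≤ Env.sc (P p) := by
    intro p hp
    have := (g6 _ (hFU p hp)).1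
    omega
  have ha6 : ∀ p ∈ F, 10 * Env.sc (P p) ≤ 6 * i := by
    intro p hp
    have h1 : (2 : ℝ) ^ ((Env.sc (P p) : ℕ) : ℝ) < (2 : ℝ) ^ (3 / 5 * (i : ℝ)) := by
      rw [Real.rpow_natCast]
      refine lt_of_lt_of_le ?_ (hFp p hp)
      exact_mod_cast hsc p hp
    have h2 := (Real.rpow_lt_rpow_left_iff (by norm_num)).1 h1
    have h3 : (10 * Env.sc (P p) : ℝ) ≤ 6 * i := by linarith
    exact_mod_cast h3
  have hSum : ∑ p ∈ F, Env.sc (P p) ≤ i + 1 := by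
    have h1 : ∏ p ∈ F, 2 ^ Env.sc (P p) ≤ ∏ p ∈ F, P p :=
      prod_le_prod' (fun p hp => (hsc p hp).le)
    have h2 : ∏ p ∈ F, P p ∣ n := by
      have h3 : ∏ p ∈ F, P p ∣ ∏ p, P p := prod_dvd_prod_of_subset _ _ _ (subset_univ _)
      rwa [prod_fin_eq (by omega : n ≠ 0)] at h3
    have h3 := Nat.le_of_dvd (by omega) h2
    rw [prod_pow_eq_pow_sum] at h1
    have h4 : 2 ^ (∑ p ∈ F, Env.sc (P p)) ≤ 2 ^ (i + 1) := by omega
    exact (Nat.pow_le_pow_iff_right (by norm_num)).1 h4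
  have hprod : ∏ p ∈ F, (1 + 2 * ((P p : ℝ) * E.gu j (P p))) ≤
      (2 : ℝ) ^ (E.δ / 2 * ((∑ p ∈ F, Env.sc (P p) : ℕ) : ℝ)) /
        ((∏ p ∈ F, Env.sc (P p) : ℕ) : ℝ) ^ 35 := by
    have h1 : ∏ p ∈ F, (1 + 2 * ((P p : ℝ) * E.gu j (P p))) ≤
        ∏ p ∈ F, ((2 : ℝ) ^ (E.δ / 2 * Env.sc (P p)) / (Env.sc (P p) : ℝ) ^ 35) := by
      apply Finset.prod_le_prod
      · intro p _
        have := gu_nonneg E j (P p)
        positivity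
      · intro p hp
        exact (g6 _ (hFU p hp)).2
    refine h1.trans (le_of_eq ?_)
    rw [prod_div_distrib]
    congr 1
    · rw [← Real.rpow_sum_of_pos (by norm_num)]
      congr 1
      push_cast
      rw [mul_sum]
    · push_cast
      rw [prod_pow]
  refine hprod.trans ?_
  have hiR : (1000 : ℝ) ≤ i := by exact_mod_cast (by omega : 1000 ≤ i)
  have hPpos : 1 ≤ ∏ p ∈ F, Env.sc (P p) := by
    apply Nat.one_le_iff_ne_zero.2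
    rw [prod_ne_zero_iff]
    intro p hp
    have := ha2 p hp
    omega
  have hPR : (1 : ℝ) ≤ ((∏ p ∈ F, Env.sc (P p) : ℕ) : ℝ) := by exact_mod_cast hPpos
  by_cases hc : 25 * ∑ p ∈ F, Env.sc (P p) ≤ 24 * i
  · have hbig := hJ1 i (by omega)
    rw [one_mul] at hbig
    have hc' : (25 : ℝ) * ((∑ p ∈ F, Env.sc (P p) : ℕ) : ℝ) ≤ 24 * i := by exact_mod_cast hc
    rw [div_le_div_iff₀ (by positivity) (by positivity)]
    have h1 : (2 : ℝ) ^ (E.δ / 2 * ((∑ p ∈ F, Env.sc (P p) : ℕ) : ℝ)) * (i : ℝ) ^ 50 ≤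
        (2 : ℝ) ^ (E.δ / 2 * ((∑ p ∈ F, Env.sc (P p) : ℕ) : ℝ)) * (2 : ℝ) ^ (E.δ / 50 * i) :=
      mul_le_mul_of_nonneg_left hbig (by positivity)
    have h2 : (2 : ℝ) ^ (E.δ / 2 * ((∑ p ∈ F, Env.sc (P p) : ℕ) : ℝ)) * (2 : ℝ) ^ (E.δ / 50 * i) ≤
        (2 : ℝ) ^ (E.δ / 2 * i) := by
      rw [← Real.rpow_add (by norm_num)]
      apply Real.rpow_le_rpow_of_exponent_le (by norm_num)
      nlinarith
    have h3 : (1 : ℝ) ≤ ((∏ p ∈ F, Env.sc (P p) : ℕ) : ℝ) ^ 35 := one_le_pow₀ hPR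
    have h4 : (0 : ℝ) < (2 : ℝ) ^ (E.δ / 2 * i) := by positivity
    nlinarith
  · push Not at hc
    have h1 := prod_large F (fun p => Env.sc (P p)) i (by omega) ha2 ha6 hc
    have h1R : (i : ℝ) ^ 2 ≤ 10 * ((∏ p ∈ F, Env.sc (P p) : ℕ) : ℝ) := by exact_mod_cast h1
    have h2 : ((i : ℝ) ^ 2) ^ 35 ≤ (10 * ((∏ p ∈ F, Env.sc (P p) : ℕ) : ℝ)) ^ 35 :=
      pow_le_pow_left₀ (by positivity) h1R 35
    have h3 : (1000 : ℝ) ^ 20 ≤ (i : ℝ) ^ 20 := pow_le_pow_left₀ (by norm_num) hiR 20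
    have h4 : 2 * (i : ℝ) ^ 50 ≤ ((∏ p ∈ F, Env.sc (P p) : ℕ) : ℝ) ^ 35 := by
      have e2 : (10 * ((∏ p ∈ F, Env.sc (P p) : ℕ) : ℝ)) ^ 35 =
          10 ^ 35 * ((∏ p ∈ F, Env.sc (P p) : ℕ) : ℝ) ^ 35 := by rw [mul_pow]
      have e3 : ((i : ℝ) ^ 2) ^ 35 = (i : ℝ) ^ 20 * (i : ℝ) ^ 50 := by ring
      rw [e2, e3] at h2
      have e4 : (1000 : ℝ) ^ 20 * (i : ℝ) ^ 50 ≤ (i : ℝ) ^ 20 * (i : ℝ) ^ 50 :=
        mul_le_mul_of_nonneg_right h3 (by positivity)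
      have e5 : (10 : ℝ) ^ 35 * (2 * (i : ℝ) ^ 50) ≤ (1000 : ℝ) ^ 20 * (i : ℝ) ^ 50 := by
        have : (0 : ℝ) ≤ (i : ℝ) ^ 50 := by positivity
        nlinarith
      have e6 : (10 : ℝ) ^ 35 * (2 * (i : ℝ) ^ 50) ≤
          10 ^ 35 * ((∏ p ∈ F, Env.sc (P p) : ℕ) : ℝ) ^ 35 := by linarith
      exact le_of_mul_le_mul_left e6 (by positivity)
    rw [div_le_div_iff₀ (by positivity) (by positivity)]
    have h5 : (2 : ℝ) ^ (E.δ / 2 * ((∑ p ∈ F, Env.sc (P p) : ℕ) : ℝ)) ≤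
        2 * (2 : ℝ) ^ (E.δ / 2 * i) := by
      have e1 : ((∑ p ∈ F, Env.sc (P p) : ℕ) : ℝ) ≤ i + 1 := by exact_mod_cast hSum
      calc (2 : ℝ) ^ (E.δ / 2 * ((∑ p ∈ F, Env.sc (P p) : ℕ) : ℝ)) ≤
          (2 : ℝ) ^ (1 + E.δ / 2 * i) := by
            apply Real.rpow_le_rpow_of_exponent_le (by norm_num)
            nlinarith
        _ = _ := by rw [Real.rpow_add (by norm_num), Real.rpow_one]
    calc (2 : ℝ) ^ (E.δ / 2 * ((∑ p ∈ F, Env.sc (P p) : ℕ) : ℝ)) * (i : ℝ) ^ 50 ≤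
        (2 * (2 : ℝ) ^ (E.δ / 2 * i)) * (i : ℝ) ^ 50 :=
          mul_le_mul_of_nonneg_right h5 (by positivity)
      _ = (2 : ℝ) ^ (E.δ / 2 * i) * (2 * (i : ℝ) ^ 50) := by ring
      _ ≤ _ := mul_le_mul_of_nonneg_left h4 (by positivity)

end Pool.Agent.Q27.CM
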