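import Pool.Agent.Q27.CM.First

set_option autoImplicit false

/-!
# Solution of the system, completely multiplicative case
-/

namespace Pool.Agent.Q27.CM

open Finset
open scoped Classical
open Pool.Agent.W76.MO Pool.Agent.W76.MO.Env

variable (E : Env)

theorem systemc (hGB : E.GBounds) (hHC : E.HCount)
    (hKey : ∃ R₀ : ℕ, ∀ R : ℕ, R₀ ≤ R → ∃ J : ℕ, ∀ j : ℕ, J ≤ j → Keyc E R j) :
    ∃ (R j : ℕ) (z : ℕ × ℕ → ℝ), (∀ x, |z x| ≤ 1) ∧ 2 ≤ R ∧ 10 ≤ j ∧ Keyc E R j ∧
      ∑ n ∈ A0 R j, E.fz j z n + ∑ n ∈ N0 R j, fcz E j z n = 0 ∧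
      (∀ i k : ℕ, j ≤ i → k < nc E.δ i →
        ∑ n ∈ E.cs R i k, E.fz j z n + ∑ n ∈ ns E R i k, fcz E j z n = 0) ∧
      ∀ n : ℕ, n ≠ 0 → |fcz E j z n| ≤ (n : ℝ) ^ (9 * E.δ) / n := by
  obtain ⟨R₀, hKey⟩ := hKey
  set R := max R₀ 2 with hR
  obtain ⟨J1, hKey⟩ := hKey R (le_max_left _ _)
  obtain ⟨J2, hJ2, hfirst⟩ := tau_firstc E hGB R
  obtain ⟨J3, hHC⟩ := hHC
  obtain ⟨J4, hJ4⟩ := ge_of_rpow_ge E.τ E.hτ R
  obtain ⟨J5, hJ5, hGB⟩ := hGB
  set j := J1 + J2 + J3 + J4 + J5 + R + 10 with hj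
  have hKj := hKey j (by omega)
  obtain ⟨hUBne, hUBp, htau1, hns1⟩ := hfirst j (by omega)
  obtain ⟨hUB, hu0, hh0, hgu, hgh, hguU, hghq, hsum1, hsum2⟩ := hGB j (by omega)
  have hj1 : 1 ≤ j := by omega
  have hjr : (1 : ℝ) ≤ j := by exact_mod_cast hj1
  have hjr10 : (10 : ℝ) ≤ j := by exact_mod_cast (by omega : 10 ≤ j)
  have hRj : R ≤ 2 ^ (j - 1) := by
    have h1 : R ≤ j - 1 := by omega
    exact h1.trans (Nat.lt_two_pow_self).le
  -- the system
  let F : (ℕ × ℕ → ℝ) → ℕ × ℕ → ℝ := fun z x =>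
    if x = (j - 1, 0) then ∑ n ∈ A0 R j, E.fz j z n + ∑ n ∈ N0 R j, fcz E j z n
    else if j ≤ x.1 ∧ x.2 < nc E.δ x.1 then
      ∑ n ∈ E.cs R x.1 x.2, E.fz j z n + ∑ n ∈ ns E R x.1 x.2, fcz E j z n
    else z x
  let W : ℕ × ℕ → ℝ := fun x =>
    if x = (j - 1, 0) then 8 * j else if j ≤ x.1 ∧ x.2 < nc E.δ x.1 then E.w x.1 else 1
  have hW : ∀ x, 0 < W x := by
    intro x
    simp only [W]
    split_ifs with h1 h2
    · positivity
    · exact E.w_pos _ (hj1.trans h2.1)
    · norm_num
  have hA0sq : ∀ n ∈ A0 R j, Squarefree n := fun n hn => by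
    unfold A0 at hn
    exact (mem_filter.1 hn).2.1
  have hcssq : ∀ i k n, n ∈ E.cs R i k → Squarefree n := fun i k n hn => by
    unfold cs at hn
    exact (mem_filter.1 hn).2.1
  have hN00 : ∀ n ∈ N0 R j, n ≠ 0 := fun n hn => by
    unfold N0 at hn
    rw [mem_filter, mem_Icc] at hn
    omega
  have hns0 : ∀ i k n, k < nc E.δ i → n ∈ ns E R i k → n ≠ 0 := fun i k n hk hn => by
    unfold ns at hn
    have := (cell_bd E.δ i k n hk (mem_filter.1 hn).1).1
    exact (lt_of_le_of_lt (Nat.zero_le _) this).ne'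
  have hE2c1 : ∀ n, 0 ≤ E2c E j n := fun n => E2c_nonneg hu0 hh0 n
  obtain ⟨z, hz1, hz0⟩ := solve F W hW (by
    intro x
    simp only [F, W]
    split_ifs with h1 h2
    · have hdisj : Disjoint (A0 R j) (N0 R j) := by
        rw [disjoint_left]
        intro n hn hn'
        unfold N0 at hn'
        exact (mem_filter.1 hn').2.1 (hA0sq n hn)
      calc |∑ n ∈ A0 R j, E.fz j 0 n + ∑ n ∈ N0 R j, fcz E j 0 n|
          ≤ ∑ n ∈ A0 R j, |E.fz j 0 n| + ∑ n ∈ N0 R j, |fcz E j 0 n| :=
            (abs_add_le _ _).trans (add_le_add (abs_sum_le_sum_abs _ _) (abs_sum_le_sum_abs _ _))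
        _ = ∑ n ∈ A0 R j, 1 / (n : ℝ) + ∑ n ∈ N0 R j, 1 / (n : ℝ) := by
            have e1 : ∑ n ∈ A0 R j, |E.fz j 0 n| = ∑ n ∈ A0 R j, 1 / (n : ℝ) :=
              sum_congr rfl fun n hn => E.fz_zero j n hu0 (hA0sq n hn)
            have e2 : ∑ n ∈ N0 R j, |fcz E j 0 n| = ∑ n ∈ N0 R j, 1 / (n : ℝ) :=
              sum_congr rfl fun n hn => fcz_zero E j n hu0 (hN00 n hn)
            rw [e1, e2]
        _ = ∑ n ∈ A0 R j ∪ N0 R j, 1 / (n : ℝ) := (sum_union hdisj).symm
        _ ≤ ∑ n ∈ Icc (1 : ℕ) (2 ^ j), 1 / (n : ℝ) := by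
            apply sum_le_sum_of_subset_of_nonneg
            · exact union_subset (filter_subset _ _) (filter_subset _ _)
            · intro n _ _
              exact one_div_nonneg.2 (Nat.cast_nonneg n)
        _ ≤ 1 + j := harm_le j
        _ ≤ 8 * j / 4 := by linarith
    · calc |∑ n ∈ E.cs R x.1 x.2, E.fz j 0 n + ∑ n ∈ ns E R x.1 x.2, fcz E j 0 n|
          ≤ ∑ n ∈ E.cs R x.1 x.2, |E.fz j 0 n| + ∑ n ∈ ns E R x.1 x.2, |fcz E j 0 n| :=
            (abs_add_le _ _).trans (add_le_add (abs_sum_le_sum_abs _ _) (abs_sum_le_sum_abs _ _))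
        _ ≤ ∑ n ∈ E.cs R x.1 x.2, 1 / (n : ℝ) + ∑ n ∈ ns E R x.1 x.2, E2c E j n / (n : ℝ) := by
            refine add_le_add (le_of_eq ?_) (sum_le_sum fun n hn => ?_)
            · exact sum_congr rfl fun n hn => E.fz_zero j n hu0 (hcssq _ _ n hn)
            · exact (fcz_bound E j n 0 0 0 hu0 hh0 (fun i => by simp) (fun i => by simp)
                (fun i => by simp) (hns0 _ _ n h2.2 hn)).1
        _ ≤ E.w x.1 / 16 + E.w x.1 / 16 := add_le_add (hKj.inv_cell x.1 x.2 h2.1 h2.2)
            (hKj.ns_cell x.1 x.2 h2.1 h2.2)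
        _ ≤ E.w x.1 / 4 := by
            have := E.w_nonneg x.1
            linarith
    · simp) (by
    intro z z' ε hz hz' hzz x
    have hε : 0 ≤ ε := (abs_nonneg _).trans (hzz (0, 0))
    have key : ∀ (A N : ℝ) (A' N' D T M : ℝ), |A - A' - D| ≤ T → |N - N'| ≤ M →
        |A + N - (A' + N') - D| ≤ T + M := by
      intro A N A' N' D T M h1 h2
      have : A + N - (A' + N') - D = (A - A' - D) + (N - N') := by ring
      rw [this]
      exact (abs_add_le _ _).trans (add_le_add h1 h2)
    simp only [F, W]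
    split_ifs with h1 h2
    · -- the first block
      subst h1
      have hsub : E.UB j ⊆ A0 R j := by
        intro p hp
        have hpp := hUBp p hp
        unfold UB at hp
        rw [mem_filter, mem_Ioc] at hp
        unfold A0
        rw [mem_filter, mem_Icc]
        refine ⟨⟨hpp.one_le, hp.1.2⟩, hpp.squarefree, ?_⟩
        intro q hq hqp
        have : q = p := (Nat.prime_dvd_prime_iff_eq hq hpp).1 hqp
        subst this
        have : R ≤ q := by omega
        exact_mod_cast this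
      have h := lip_sum (A0 R j) (E.UB j) hsub hUBne (E.fz j z) (E.fz j z') (E.tau j) ε (8 * j)
        (z (j - 1, 0) - z' (j - 1, 0))
        (fun n hn _ => (E.fz_bound j n z z' ε hu0 hz hz' hzz (hA0sq n hn)).2)
        (fun p hp => E.prime_lip j p (hUBp p hp) z z' (j - 1, 0) _ ε
          (fun y => (E.gz_first j y (fun q hq => (hgh q hq).2.1) p hp).1)
          (E.gz_first j z (fun q hq => (hgh q hq).2.1) p hp).2)
      have hN : |∑ n ∈ N0 R j, fcz E j z n - ∑ n ∈ N0 R j, fcz E j z' n| ≤ ε * 4 := by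
        rw [← sum_sub_distrib]
        refine (abs_sum_le_sum_abs _ _).trans ?_
        refine (sum_le_sum fun n hn => (fcz_bound E j n z z' ε hu0 hh0 hz hz' hzz (hN00 n hn)).2).trans ?_
        rw [← mul_sum]
        exact mul_le_mul_of_nonneg_left hns1 hε
      refine (key _ _ _ _ _ _ _ h hN).trans ?_
      have h5 : ε * (∑ n ∈ A0 R j, E.tau j n - 8 * j) ≤ ε * 2 :=
        mul_le_mul_of_nonneg_left (by linarith) hε
      have h6 : ε * 6 ≤ ε * (8 * (j : ℝ) / 4) := mul_le_mul_of_nonneg_left (by linarith) hε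
      linarith
    · -- a cell
      obtain ⟨i, k⟩ := x
      simp only at h2 ⊢
      obtain ⟨hji, hk⟩ := h2
      have htau := hKj.tau_cell i k hji hk
      have hnsc := hKj.ns_cell i k hji hk
      have hi1 : 1 ≤ i := hj1.trans hji
      have hir : (0 : ℝ) < i := by exact_mod_cast hi1
      have hhpos : (0 : ℝ) < hh E.δ i := by exact_mod_cast hh_pos E.δ i
      have hRi : R ≤ 2 ^ i := by
        refine hRj.trans (Nat.pow_le_pow_right (by norm_num) (by omega))
      have hN : |∑ n ∈ ns E R i k, fcz E j z n - ∑ n ∈ ns E R i k, fcz E j z' n| ≤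
          ε * (E.w i / 16) := by
        rw [← sum_sub_distrib]
        refine (abs_sum_le_sum_abs _ _).trans ?_
        refine (sum_le_sum fun n hn =>
          (fcz_bound E j n z z' ε hu0 hh0 hz hz' hzz (hns0 i k n hk hn)).2).trans ?_
        rw [← mul_sum]
        refine mul_le_mul_of_nonneg_left (le_trans (sum_le_sum fun n _ => ?_) hnsc) hε
        have : (0 : ℝ) ≤ 1 / (n : ℝ) := one_div_nonneg.2 (Nat.cast_nonneg n)
        linarith
      have hfin : ∀ S : ℝ, S ≤ E.w i + 3 * (E.w i / 16) →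
          ε * (S - E.w i) + ε * (E.w i / 16) ≤ ε * (E.w i / 4) := by
        intro S hS
        rw [← mul_add]
        exact mul_le_mul_of_nonneg_left (by linarith) hε
      by_cases hkb : k ∈ E.Bad i
      · -- bad cell
        have hne : (E.Host j i k).Nonempty := by
          rw [← Finset.card_pos]
          have h3 := hHC j (by omega) i hji k hkb
          have h4 : 0 < E.cH / 2 * hh E.δ i / i := div_pos (mul_pos (half_pos E.hcH) hhpos) hir
          exact_mod_cast h4.trans_le h3
        have hsub : E.Host j i k ⊆ E.cs R i k := by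
          intro n hn
          unfold Host at hn
          rw [mem_filter] at hn
          unfold cs
          rw [mem_filter]
          refine ⟨hn.1, hn.2.2.2.1, ?_⟩
          intro p hp hpn
          exact (hJ4 i (by omega)).trans (hn.2.2.2.2.1 p hp hpn)
        have h := lip_sum (E.cs R i k) (E.Host j i k) hsub hne (E.fz j z) (E.fz j z') (E.tau j) ε
          (E.w i) (z (i, k) - z' (i, k))
          (fun n hn _ => (E.fz_bound j n z z' ε hu0 hz hz' hzz (hcssq _ _ n hn)).2)
          (fun n hn => E.host_lip j z z' ε hu0 hgu (fun q hq => (hgh q hq).1) hz hz' hzz i k n hji hkb hn)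
        exact (key _ _ _ _ _ _ _ h hN).trans (hfin _ htau)
      · -- good cell
        have hcard : 0 < (((cell E.δ i k).filter E.isU).card : ℝ) := by
          have h3 : ¬ ((((cell E.δ i k).filter E.isU).card : ℝ) < E.cU * hh E.δ i / (i : ℝ) ^ 4) := by
            intro h3
            apply hkb
            unfold Bad
            rw [mem_filter, mem_range]
            exact ⟨hk, h3⟩
          rw [not_lt] at h3
          exact lt_of_lt_of_le (div_pos (mul_pos E.hcU hhpos) (pow_pos hir 4)) h3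
        have hne : ((cell E.δ i k).filter E.isU).Nonempty := by
          rw [← Finset.card_pos]
          exact_mod_cast hcard
        have hpr : ∀ p ∈ (cell E.δ i k).filter E.isU, p.Prime := fun p hp =>
          E.u_prime p (mem_filter.1 hp).2
        have hsub : (cell E.δ i k).filter E.isU ⊆ E.cs R i k := by
          intro p hp
          have hpp := hpr p hp
          rw [mem_filter] at hp
          unfold cs
          rw [mem_filter]
          refine ⟨hp.1, hpp.squarefree, ?_⟩
          intro q hq hqp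
          have : q = p := (Nat.prime_dvd_prime_iff_eq hq hpp).1 hqp
          subst this
          have h4 := (cell_loc E.δ E.hδ i k q hk hp.1).1
          have : R ≤ q := by omega
          exact_mod_cast this
        have h := lip_sum (E.cs R i k) ((cell E.δ i k).filter E.isU) hsub hne (E.fz j z) (E.fz j z')
          (E.tau j) ε (E.w i) (z (i, k) - z' (i, k))
          (fun n hn _ => (E.fz_bound j n z z' ε hu0 hz hz' hzz (hcssq _ _ n hn)).2)
          (fun p hp => by
            have hp' := mem_filter.1 hp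
            exact E.prime_lip j p (hpr p hp) z z' (i, k) _ ε
              (fun y => (E.gz_good j y (fun q hq => (hgh q hq).2.1) hh0 i k p hji hk hkb hp'.1 hp'.2).1)
              (E.gz_good j z (fun q hq => (hgh q hq).2.1) hh0 i k p hji hk hkb hp'.1 hp'.2).2)
        exact (key _ _ _ _ _ _ _ h hN).trans (hfin _ htau)
    · simp only [one_mul, sub_self, abs_zero]
      exact mul_nonneg hε (by norm_num))
  refine ⟨R, j, z, hz1, le_max_right _ _, by omega, hKj, ?_, ?_, fun n hn => ?_⟩
  · have h := hz0 (j - 1, 0)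
    simp only [F] at h
    simpa using h
  · intro i k hi hk
    have h := hz0 (i, k)
    simp only [F] at h
    have hne : ¬ ((i, k) : ℕ × ℕ) = (j - 1, 0) := by
      intro h1
      have : i = j - 1 := (Prod.ext_iff.1 h1).1
      omega
    rw [if_neg hne, if_pos ⟨hi, hk⟩] at h
    exact h
  · refine ((fcz_bound E j n z z 0 hu0 hh0 hz1 hz1 (fun i => by simp) hn).1).trans ?_
    have hE := E2c_le hgu hgh hguU hghq hu0 hh0 hn
    exact div_le_div_of_nonneg_right hE (Nat.cast_nonneg n)

end Pool.Agent.Q27.CM
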